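import Pool.Agent.Run7.h641.IL.Key

/-!
# The law of inertia for forms on additive functors: definitions
-/

set_option autoImplicit false

open CategoryTheory Limits MonoidalCategory Module
open Pool.Agent.Y112.SR Pool.Agent.Y112.KD Pool.Agent.N64.AF Pool.Agent.Run7.h184.AJ

namespace Pool.Agent.Run7.h641.IL

universe v u w x

variable {C : Type u} [Category.{v} C] [Preadditive C] [MonoidalCategory C]
  [MonoidalPreadditive C] [SymmetricCategory C] [RightRigidCategory C] [Linear ℝ C]
  {K : Type w} [Field K] [Algebra ℝ K] {R : SuperRealisation C K}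
  {G : C ⥤ ModuleCat.{x} ℝ} {dag : ∀ ⦃Y Z : C⦄, (Y ⟶ Z) → (Z ⟶ Y)}

/-- The trace of an endomorphism on the cohomology. -/
noncomputable def rtr (R : SuperRealisation C K) {Y : C} (f : Y ⟶ Y) : K :=
  LinearMap.trace K (R.H.obj Y) (R.H.map f).hom

/-- `f ↦ f' = dag f` is a positive involution: it is linear, reverses compositions (`IsInv`), is
compatible with the tensor product and with the traces on the cohomology, and the trace of `f f'`
is positive if `f` is not numerically trivial. -/
structure IsPositive (R : SuperRealisation C K) (dag : ∀ ⦃Y Z : C⦄, (Y ⟶ Z) → (Z ⟶ Y)) : Prop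
    extends IsInv dag where
  whisker : ∀ (Y : C) {Z W : C} (f : Z ⟶ W), dag (Y ◁ f) = Y ◁ dag f
  unitor : ∀ Y : C, dag (ρ_ Y).hom = (ρ_ Y).inv
  trace : ∀ {Y : C} (f : Y ⟶ Y), rtr R (dag f) = rtr R f
  pos : ∀ {Y Z : C} (f : Y ⟶ Z), ¬ NumTriv f → ∃ r : ℝ, 0 < r ∧
    rtr R (f ≫ dag f) = algebraMap ℝ K r

namespace Form

variable (F : Form G dag)

/-- The kernel of the form. -/
def ker (Y : C) : Submodule ℝ (G.obj Y) := LinearMap.ker (F.B Y)

/-- The rank of the form. -/
noncomputable def rk (Y : C) : ℕ∞ := dimE ℝ (G.obj Y ⧸ F.ker Y)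

/-- The number of the negative squares of the form on `G Y`: the largest dimension of a subspace on
which it is negative definite. -/
noncomputable def negSq (Y : C) : ℕ∞ := negIndex fun a b : G.obj Y => F.B Y a b

/-- The number of the positive squares. -/
noncomputable def posSq (Y : C) : ℕ∞ := posIndex fun a b : G.obj Y => F.B Y a b

end Form

/-- The endomorphism `f` is a composition of `k` numerically trivial endomorphisms of `Y` (and a
further factor). -/
def NumProd : ℕ → ∀ {Y : C}, (Y ⟶ Y) → Prop
  | 0, _, _ => True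
  | k + 1, Y, f => ∃ g h : Y ⟶ Y, NumProd k g ∧ NumTriv h ∧ f = g ≫ h

/-- For each power of `T`, the compositions of sufficiently many numerically trivial endomorphisms
send all of `G` to the kernel of the form. -/
def NumNil (F : Form G dag) (T : C) : Prop :=
  ∀ m : ℕ, ∃ k : ℕ, ∀ f : tp T m ⟶ tp T m, NumProd k f →
    ∀ a b : G.obj (tp T m), F.B (tp T m) ((G.map f).hom a) b = 0

/-- There are at most `k` elements of `G (T ^ m)` for one `m` such that for each `n` the form is
nonpositive on the space spanned by their images in `G (T ^ n)` under all morphisms, and nonnegative on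
the orthogonal of this space. -/
def NegGenerated (F : Form G dag) (T : C) (k : ℕ) : Prop :=
  ∃ (m l : ℕ) (z : Fin l → G.obj (tp T m)), l ≤ k ∧ ∀ n, ∃ W : Submodule ℝ (G.obj (tp T n)),
    W = Submodule.span ℝ {y | ∃ (i : Fin l) (c : tp T m ⟶ tp T n), (G.map c).hom (z i) = y} ∧
    (∀ a ∈ W, F.B (tp T n) a a ≤ 0) ∧
    ∀ a, (∀ b ∈ W, F.B (tp T n) a b = 0) → 0 ≤ F.B (tp T n) a a

/-- The compositions of `k` numerically trivial morphisms between powers of `T` send all of `G` to the
kernel of the form. -/
def Kills (F : Form G dag) (T : C) (k : ℕ) : Prop :=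
  ∀ (a b : ℕ) (f : tp T a ⟶ tp T b), NumPow T k f →
    ∀ (y : G.obj (tp T a)) (z : G.obj (tp T b)), F.B (tp T b) ((G.map f).hom y) z = 0

/-- The law for the numbers of the negative squares of the form on the powers of `T`: their
quotients by the numerical ranks converge to `N`, the form is nonnegative on all powers if and only
if `N = 0`, if `N = k` is finite the negative parts are generated by at most `k` elements and the
compositions of `2 k + 1` numerically trivial morphisms send `G` to the kernel, and if a value on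
`T ^ m` is negative, then the numbers of the negative squares on the powers `T ^ (2 n)` are large. -/
structure SignLaw [MonoidalLinear ℝ C] (R : SuperRealisation C K) (F : Form G dag) (T : C)
    (N : ℕ∞) : Prop where
  limit : RatioTo ℝ T (fun n => F.negSq (tp T n)) N
  nonneg : N = 0 ↔ ∀ n, ∀ a : G.obj (tp T n), 0 ≤ F.B (tp T n) a a
  generated : ∀ k : ℕ, N = k → NegGenerated F T k
  kills : ∀ k : ℕ, N = k → Kills F T (2 * k + 1)
  gap : ∀ m n : ℕ, 128 * (m + 1) ^ 2 * bt R T ^ (2 * m + 6) ≤ 2 * n →
    (∃ a, F.B (tp T m) a a < 0) → Large ℝ R T n (F.negSq (tp T (2 * n)))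

/-- The law of inertia: `Nker`, `Npos` and `Nneg` are the limits of the quotients by the numerical
ranks of the dimensions of the kernels and of the numbers of the positive and of the negative
squares. -/
structure Inertia [MonoidalLinear ℝ C] (R : SuperRealisation C K) (F : Form G dag) (T : C)
    (Nker Npos Nneg : ℕ∞) : Prop where
  rank : ∀ n, F.rk (tp T n) = F.posSq (tp T n) + F.negSq (tp T n)
  neg : SignLaw R F T Nneg
  pos : SignLaw R F.neg T Npos
  definite : Nker = 0 ∧ Nneg = 0 ↔ ∀ n, ∀ a : G.obj (tp T n), a ≠ 0 → 0 < F.B (tp T n) a a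
  zero : ∀ k l : ℕ, Nneg = k → Nker = l → ∀ (a b : ℕ) (f : tp T a ⟶ tp T b),
    NumPow T (2 * k + 1 + l) f → G.map f = 0

/-- The dimensions of the values of the functor and of the kernels of the form. -/
structure KerLaw [MonoidalLinear ℝ C] (F : Form G dag) (T : C) (Nall Nker Nrk : ℕ∞) : Prop where
  all : RatioTo ℝ T (fun n => dimE ℝ (G.obj (tp T n))) Nall
  ker : RatioTo ℝ T (fun n => dimE ℝ (F.ker (tp T n))) Nker
  rk : RatioTo ℝ T (fun n => F.rk (tp T n)) Nrk
  sum : Nall = Nker + Nrk
  nondeg : Nker = 0 ↔ ∀ n, ∀ a : G.obj (tp T n), (∀ b, F.B (tp T n) a b = 0) → a = 0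

end Pool.Agent.Run7.h641.IL
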