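import Mathlib

/-!
# A spectral lemma for two symmetric forms, and forms on quotients
-/

set_option autoImplicit false

open Module

namespace Pool.Agent.Run7.h641.IL

universe x

lemma spec_aux {E : Type x} [NormedAddCommGroup E] [InnerProductSpace ℝ E] [FiniteDimensional ℝ E]
    (T : E →ₗ[ℝ] E) (hT : T.IsSymmetric) (e : E) (he : inner ℝ (T e) e < 0) :
    ∃ z : E, z ≠ 0 ∧ ∃ μ : ℝ, μ < 0 ∧ T z = μ • z := by
  by_contra hcon
  have h0 : ∀ i, 0 ≤ hT.eigenvalues rfl i := by
    intro i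
    by_contra hi
    refine hcon ⟨hT.eigenvectorBasis rfl i, ?_, hT.eigenvalues rfl i, not_le.1 hi, ?_⟩
    · exact (hT.eigenvectorBasis rfl).toBasis.ne_zero i |> fun h => by
        simpa using h
    · exact hT.apply_eigenvectorBasis rfl i
  have h1 := (hT.eigenvectorBasis rfl).sum_inner_mul_inner (T e) e
  have h2 : 0 ≤ inner ℝ (T e) e := by
    rw [← h1]
    refine Finset.sum_nonneg fun i _ => ?_
    rw [hT e, hT.apply_eigenvectorBasis rfl i]
    have h3 : inner ℝ e ((hT.eigenvalues rfl i : ℝ) • hT.eigenvectorBasis rfl i) =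
        hT.eigenvalues rfl i * inner ℝ e (hT.eigenvectorBasis rfl i) := by
      rw [inner_smul_right]
    have h4 : inner ℝ (hT.eigenvectorBasis rfl i) e = inner ℝ e (hT.eigenvectorBasis rfl i) :=
      real_inner_comm _ _
    have h5 : (((hT.eigenvalues rfl i : ℝ) : ℝ) • hT.eigenvectorBasis rfl i) =
        ((hT.eigenvalues rfl i : ℝ) • hT.eigenvectorBasis rfl i) := rfl
    have h6 : inner ℝ e ((hT.eigenvalues rfl i : ℝ) • hT.eigenvectorBasis rfl i) *
        inner ℝ (hT.eigenvectorBasis rfl i) e =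
        hT.eigenvalues rfl i * (inner ℝ e (hT.eigenvectorBasis rfl i)) ^ 2 := by
      rw [h3, h4]
      ring
    refine le_of_le_of_eq (mul_nonneg (h0 i) (sq_nonneg (inner ℝ e
      (hT.eigenvectorBasis rfl i)))) ?_
    exact h6.symm
  linarith

/-- The spectral lemma. -/
theorem spec {E : Type x} [AddCommGroup E] [Module ℝ E] [Module.Finite ℝ E]
    (g b : E →ₗ[ℝ] E →ₗ[ℝ] ℝ) (hg : ∀ x y, g x y = g y x) (hpos : ∀ x, x ≠ 0 → 0 < g x x)
    (hb : ∀ x y, b x y = b y x) {e : E} (he : b e e < 0) :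
    ∃ z : E, z ≠ 0 ∧ ∃ μ : ℝ, μ < 0 ∧ ∀ y, b z y = μ * g z y := by
  have hinj : Function.Injective g := by
    rw [← LinearMap.ker_eq_bot, Submodule.eq_bot_iff]
    intro x hx
    by_contra hx0
    have h1 := hpos x hx0
    rw [LinearMap.mem_ker.1 hx] at h1
    simp at h1
  let G : E ≃ₗ[ℝ] Module.Dual ℝ E := g.linearEquivOfInjective hinj Subspace.dual_finrank_eq.symm
  have hG : ∀ x, G x = g x := fun x => LinearMap.linearEquivOfInjective_apply _ _ _
  let T : E →ₗ[ℝ] E := G.symm.toLinearMap ∘ₗ b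
  have hT : ∀ x y, g (T x) y = b x y := by
    intro x y
    rw [← hG]
    show G (G.symm (b x)) y = b x y
    rw [LinearEquiv.apply_symm_apply]
  let c : InnerProductSpace.Core ℝ E :=
    { inner := fun x y => g x y
      conj_inner_symm := fun x y => by
        show g y x = g x y
        exact hg y x
      re_inner_nonneg := fun x => by
        show 0 ≤ g x x
        by_cases hx : x = 0
        · rw [hx]
          simp
        · exact (hpos x hx).le
      add_left := fun x y z => by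
        show g (x + y) z = g x z + g y z
        rw [map_add, LinearMap.add_apply]
      smul_left := fun x y r => by
        show g (r • x) y = r * g x y
        rw [map_smul, LinearMap.smul_apply, smul_eq_mul]
      definite := fun x hx => by
        by_contra hx0
        exact absurd hx (hpos x hx0).ne' }
  letI i1 : NormedAddCommGroup E := c.toNormedAddCommGroup
  letI i2 : InnerProductSpace ℝ E := InnerProductSpace.ofCore c.toCore
  have hin : ∀ x y : E, inner ℝ x y = g x y := fun _ _ => rfl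
  have hsym : T.IsSymmetric := by
    intro x y
    rw [hin, hin, hT, hg x (T y), hT, hb]
  obtain ⟨z, hz, μ, hμ, h1⟩ := spec_aux T hsym e (by rw [hin, hT]; exact he)
  refine ⟨z, hz, μ, hμ, fun y => ?_⟩
  rw [← hT, h1, map_smul, LinearMap.smul_apply, smul_eq_mul]

/-- Forms on quotients. -/
lemma desc {V : Type x} [AddCommGroup V] [Module ℝ V] (N : Submodule ℝ V)
    (q : V →ₗ[ℝ] V →ₗ[ℝ] ℝ) (h1 : ∀ x ∈ N, ∀ y, q x y = 0) (h2 : ∀ x, ∀ y ∈ N, q x y = 0) :
    ∃ q' : (V ⧸ N) →ₗ[ℝ] (V ⧸ N) →ₗ[ℝ] ℝ, ∀ x y, q' (N.mkQ x) (N.mkQ y) = q x y := by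
  let q1 : (V ⧸ N) →ₗ[ℝ] V →ₗ[ℝ] ℝ := N.liftQ q fun x hx =>
    LinearMap.mem_ker.2 (LinearMap.ext fun y => h1 x hx y)
  let q2 : (V ⧸ N) →ₗ[ℝ] (V ⧸ N) →ₗ[ℝ] ℝ := N.liftQ q1.flip fun y hy =>
    LinearMap.mem_ker.2 (LinearMap.ext fun x => by
      obtain ⟨x, rfl⟩ := N.mkQ_surjective x
      exact h2 x y hy)
  exact ⟨q2.flip, fun x y => rfl⟩

end Pool.Agent.Run7.h641.IL
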