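import Pool.Agent.Run7.h641.IL.LA
import Pool.Agent.Run7.h641.IL.Spec

/-!
# The key lemma: maximal stable families of semidefinite subspaces
-/

set_option autoImplicit false
set_option linter.unusedSectionVars false

open CategoryTheory Module
open Pool.Agent.N64.AF Pool.Agent.Run7.h184.AJ

namespace Pool.Agent.Run7.h641.IL

universe v u x

variable {C : Type u} [Category.{v} C] [Preadditive C] [Linear ℝ C]

/-- The properties of an involution which are used. -/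
structure IsInv (dag : ∀ ⦃Y Z : C⦄, (Y ⟶ Z) → (Z ⟶ Y)) : Prop where
  add : ∀ {Y Z : C} (f g : Y ⟶ Z), dag (f + g) = dag f + dag g
  smul : ∀ {Y Z : C} (r : ℝ) (f : Y ⟶ Z), dag (r • f) = r • dag f
  comp : ∀ {X Y Z : C} (f : X ⟶ Y) (g : Y ⟶ Z), dag (f ≫ g) = dag g ≫ dag f
  invol : ∀ {Y Z : C} (f : Y ⟶ Z), dag (dag f) = f

/-- A symmetric form on a functor with adjoints. -/
structure Form (G : C ⥤ ModuleCat.{x} ℝ) (dag : ∀ ⦃Y Z : C⦄, (Y ⟶ Z) → (Z ⟶ Y)) where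
  /-- the form -/
  B : ∀ Y : C, G.obj Y →ₗ[ℝ] G.obj Y →ₗ[ℝ] ℝ
  symm : ∀ (Y : C) (a b : G.obj Y), B Y a b = B Y b a
  adj : ∀ {Y Z : C} (f : Y ⟶ Z) (a : G.obj Y) (b : G.obj Z),
    B Z ((G.map f).hom a) b = B Y a ((G.map (dag f)).hom b)

variable {G : C ⥤ ModuleCat.{x} ℝ} {dag : ∀ ⦃Y Z : C⦄, (Y ⟶ Z) → (Z ⟶ Y)}

/-- The opposite form. -/
def Form.neg (F : Form G dag) : Form G dag where
  B Y := -F.B Y
  symm Y a b := by
    simp only [LinearMap.neg_apply]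
    rw [F.symm]
  adj f a b := by
    simp only [LinearMap.neg_apply]
    rw [F.adj]

/-- `S` is a maximal stable family of subspaces on which the form is negative semidefinite. -/
structure IsMaxNeg (F : Form G dag) (S : ∀ Y, Submodule ℝ (G.obj Y)) : Prop where
  stab : IsStab G S
  neg : ∀ (Y : C), ∀ a ∈ S Y, F.B Y a a ≤ 0
  max : ∀ S' : ∀ Y, Submodule ℝ (G.obj Y), IsStab G S' → (∀ (Y : C), ∀ a ∈ S' Y, F.B Y a a ≤ 0) →
    (∀ Y, S Y ≤ S' Y) → ∀ Y, S' Y ≤ S Y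

/-- Existence. -/
theorem exists_max (F : Form G dag) : ∃ S, IsMaxNeg F S := by
  let P : Set (∀ Y, Submodule ℝ (G.obj Y)) :=
    {S | IsStab G S ∧ ∀ (Y : C), ∀ a ∈ S Y, F.B Y a a ≤ 0}
  have hbot : (fun Y => (⊥ : Submodule ℝ (G.obj Y))) ∈ P := by
    refine ⟨fun Y Z f => bot_le, fun Y a ha => ?_⟩
    rw [(Submodule.mem_bot ℝ).1 ha, map_zero]
  obtain ⟨S, -, hS⟩ := zorn_le_nonempty₀ P (fun c hc hch y hy => by
    haveI : Nonempty c := ⟨⟨y, hy⟩⟩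
    have hdir : ∀ Y, Directed (· ≤ ·) fun s : c => s.1 Y := by
      intro Y s t
      rcases hch.total s.2 t.2 with h | h
      · exact ⟨t, h Y, le_rfl⟩
      · exact ⟨s, le_rfl, h Y⟩
    refine ⟨fun Y => ⨆ s : c, s.1 Y, ⟨?_, ?_⟩, fun s hs Y => ?_⟩
    · intro Y Z f a ha
      obtain ⟨s, hs⟩ := (Submodule.mem_iSup_of_directed _ (hdir Y)).1 ha
      exact (Submodule.mem_iSup_of_directed _ (hdir Z)).2 ⟨s, (hc s.2).1 f hs⟩
    · intro Y a ha
      obtain ⟨s, hs⟩ := (Submodule.mem_iSup_of_directed _ (hdir Y)).1 ha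
      exact (hc s.2).2 Y a hs
    · exact le_iSup (fun s : c => s.1 Y) ⟨s, hs⟩) _ hbot
  exact ⟨S, hS.prop.1, hS.prop.2, fun S' h1 h2 h3 => hS.2 ⟨h1, h2⟩ h3⟩

section Gen

variable [G.Additive] [G.Linear ℝ]

/-- The images of an element. -/
def ev (G : C ⥤ ModuleCat.{x} ℝ) [G.Additive] [G.Linear ℝ] {Y : C} (z : G.obj Y) (Z : C) :
    (Y ⟶ Z) →ₗ[ℝ] G.obj Z where
  toFun c := (G.map c).hom z
  map_add' a b := by
    rw [G.map_add]
    rfl
  map_smul' r a := by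
    rw [G.map_smul]
    rfl

lemma mem_of_gen {F : Form G dag} {S : ∀ Y, Submodule ℝ (G.obj Y)} (hS : IsMaxNeg F S) {Y : C}
    {z : G.obj Y} (hz : ∀ s ∈ S Y, F.B Y z s = 0)
    (h : ∀ (Z : C) (c : Y ⟶ Z), F.B Z ((G.map c).hom z) ((G.map c).hom z) ≤ 0) : z ∈ S Y := by
  have h1 := hS.max (fun Z => S Z ⊔ LinearMap.range (ev G z Z)) (fun Z W f a ha => by
      obtain ⟨s, hs, t, ⟨c, rfl⟩, rfl⟩ := Submodule.mem_sup.1 ha
      refine Submodule.mem_sup.2 ⟨(G.map f).hom s, hS.stab f hs, ev G z W (c ≫ f), ⟨c ≫ f, rfl⟩, ?_⟩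
      rw [map_add]
      congr 1
      show (G.map (c ≫ f)).hom z = (G.map f).hom ((G.map c).hom z)
      rw [G.map_comp]
      rfl) (fun Z a ha => by
      obtain ⟨s, hs, t, ⟨c, rfl⟩, rfl⟩ := Submodule.mem_sup.1 ha
      have h2 : F.B Z (ev G z Z c) s = 0 := by
        show F.B Z ((G.map c).hom z) s = 0
        rw [F.adj]
        exact hz _ (hS.stab (dag c) hs)
      have h3 : F.B Z s (ev G z Z c) = 0 := by rw [F.symm, h2]
      have h4 := h Z c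
      have h5 := hS.neg Z s hs
      simp only [map_add, LinearMap.add_apply]
      rw [h2, h3]
      have h6 : F.B Z (ev G z Z c) (ev G z Z c) ≤ 0 := h4
      linarith) (fun Z => le_sup_left) Y
  refine h1 (Submodule.mem_sup_right ⟨𝟙 Y, ?_⟩)
  show (G.map (𝟙 Y)).hom z = z
  rw [G.map_id]
  rfl

end Gen

/-- The endomorphism `f` is a composition of `k` elements of `N` (and further factors). -/
def NPr {Y : C} (N : Submodule ℝ (Y ⟶ Y)) : ℕ → (Y ⟶ Y) → Prop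
  | 0, _ => True
  | k + 1, f => ∃ g h : Y ⟶ Y, NPr N k g ∧ h ∈ N ∧ f = g ≫ h

section NPr

variable {Y : C} {N : Submodule ℝ (Y ⟶ Y)}

lemma NPr.right (hr : ∀ x ∈ N, ∀ g : Y ⟶ Y, x ≫ g ∈ N) {k : ℕ} {f : Y ⟶ Y} (h : NPr N k f)
    (g : Y ⟶ Y) : NPr N k (f ≫ g) := by
  cases k with
  | zero => trivial
  | succ k =>
    obtain ⟨f', y, h1, h2, rfl⟩ := h
    exact ⟨f', y ≫ g, h1, hr y h2 g, Category.assoc _ _ _⟩

lemma NPr.left {k : ℕ} {f : Y ⟶ Y} (h : NPr N k f) (g : Y ⟶ Y) : NPr N k (g ≫ f) := by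
  induction k generalizing f with
  | zero => trivial
  | succ k ih =>
    obtain ⟨f', y, h1, h2, rfl⟩ := h
    exact ⟨g ≫ f', y, ih h1, h2, (Category.assoc _ _ _).symm⟩

lemma NPr.mul (hr : ∀ x ∈ N, ∀ g : Y ⟶ Y, x ≫ g ∈ N) {i j : ℕ} {f g : Y ⟶ Y} (h : NPr N i f)
    (h' : NPr N j g) : NPr N (i + j) (f ≫ g) := by
  induction j generalizing g with
  | zero => exact h.right hr g
  | succ j ih =>
    obtain ⟨g', y, h1, h2, rfl⟩ := h'
    exact ⟨f ≫ g', y, ih h1, h2, (Category.assoc _ _ _).symm⟩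

lemma NPr.one {f : Y ⟶ Y} (h : f ∈ N) : NPr N 1 f := ⟨𝟙 Y, f, trivial, h, (Category.id_comp _).symm⟩

lemma NPr.inv (hI : IsInv dag) (hr : ∀ x ∈ N, ∀ g : Y ⟶ Y, x ≫ g ∈ N)
    (hd : ∀ x ∈ N, dag x ∈ N) {k : ℕ} {f : Y ⟶ Y} (h : NPr N k f) : NPr N k (dag f) := by
  induction k generalizing f with
  | zero => trivial
  | succ k ih =>
    obtain ⟨f', y, h1, h2, rfl⟩ := h
    rw [hI.comp, add_comm]
    exact (NPr.one (hd y h2)).mul hr (ih h1)

lemma NPr.mono (hr : ∀ x ∈ N, ∀ g : Y ⟶ Y, x ≫ g ∈ N) {i j : ℕ} (hij : i ≤ j) {f : Y ⟶ Y}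
    (h : NPr N j f) : NPr N i f := by
  induction j, hij using Nat.le_induction generalizing f with
  | base => exact h
  | succ n _ ih =>
    obtain ⟨f', y, h1, h2, rfl⟩ := h
    exact ih (h1.right hr y)

end NPr

/-- **The key lemma.** -/
theorem key [G.Additive] [G.Linear ℝ] (hI : IsInv dag) {F : Form G dag}
    {S : ∀ Y, Submodule ℝ (G.obj Y)} (hS : IsMaxNeg F S) {Y : C} (N : Submodule ℝ (Y ⟶ Y))
    [Module.Finite ℝ ((Y ⟶ Y) ⧸ N)] (hl : ∀ x ∈ N, ∀ g : Y ⟶ Y, g ≫ x ∈ N)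
    (hr : ∀ x ∈ N, ∀ g : Y ⟶ Y, x ≫ g ∈ N) (hd : ∀ x ∈ N, dag x ∈ N)
    (t : (Y ⟶ Y) →ₗ[ℝ] ℝ) (ht0 : ∀ x ∈ N, t x = 0) (htd : ∀ x, t (dag x) = t x)
    (htn : ∀ (Z : C) (c : Y ⟶ Z), 0 ≤ t (c ≫ dag c)) (htp : ∀ x : Y ⟶ Y, x ∉ N → 0 < t (x ≫ dag x))
    {k : ℕ} (hk : ∀ f : Y ⟶ Y, NPr N k f → ∀ a, F.B Y ((G.map f).hom a) = 0) {a : G.obj Y}
    (ha : ∀ s ∈ S Y, F.B Y a s = 0) : 0 ≤ F.B Y a a := by
  by_contra hneg
  rw [not_le] at hneg
  -- the functional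
  let φ : (Y ⟶ Y) →ₗ[ℝ] ℝ := (F.B Y a) ∘ₗ ev G a Y
  have hφ : ∀ x, φ x = F.B Y a ((G.map x).hom a) := fun _ => rfl
  have hBB : ∀ (Z : C) (x y : Y ⟶ Z), F.B Z ((G.map x).hom a) ((G.map y).hom a) =
      φ (x ≫ dag y) := by
    intro Z x y
    rw [F.symm, F.adj, hφ, G.map_comp]
    rfl
  have hφd : ∀ x, φ (dag x) = φ x := by
    intro x
    rw [hφ, hφ, ← F.adj, F.symm]
  have hperp : ∀ (Z : C) (c : Y ⟶ Z), ∀ s ∈ S Z, F.B Z ((G.map c).hom a) s = 0 := by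
    intro Z c s hs
    rw [F.adj]
    exact ha _ (hS.stab (dag c) hs)
  -- step 1
  have step1 : ∀ j, j ≤ k → ∀ x, NPr N (k - j + 1) x → (G.map x).hom a ∈ S Y := by
    intro j
    induction j with
    | zero =>
      intro _ x hx
      have h0 : NPr N k x := hx.mono hr (by omega)
      have hcx : ∀ (Z : C) (c : Y ⟶ Z), F.B Z ((G.map c).hom ((G.map x).hom a))
          ((G.map c).hom ((G.map x).hom a)) ≤ 0 := by
        intro Z c
        rw [F.adj, hk x h0, LinearMap.zero_apply]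
      exact mem_of_gen hS (hperp Y x) hcx
    | succ j ih =>
      intro hj x hx
      refine mem_of_gen hS (hperp Y x) fun Z c => ?_
      have e1 : (G.map c).hom ((G.map x).hom a) = (G.map (x ≫ c)).hom a := by
        rw [G.map_comp]
        rfl
      rw [e1, hBB, hφ]
      have e2 : (x ≫ c) ≫ dag (x ≫ c) = x ≫ (c ≫ dag c) ≫ dag x := by
        rw [hI.comp]
        simp only [Category.assoc]
      have h1 : NPr N (k - j + 1) (x ≫ (c ≫ dag c) ≫ dag x) := by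
        have h2 := NPr.mul hr hx ((NPr.inv hI hr hd hx).left (c ≫ dag c))
        exact h2.mono hr (by omega)
      rw [e2]
      exact (ha _ (ih (by omega) _ h1)).le
  have hN : ∀ x ∈ N, φ x = 0 := by
    intro x hx
    rw [hφ]
    refine ha _ (step1 k le_rfl x ?_)
    rw [Nat.sub_self]
    exact NPr.one hx
  -- step 2
  let gq : (Y ⟶ Y) →ₗ[ℝ] (Y ⟶ Y) →ₗ[ℝ] ℝ := LinearMap.mk₂ ℝ (fun x y => t (x ≫ dag y))
    (fun x x' y => by rw [Preadditive.add_comp, map_add])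
    (fun r x y => by rw [Linear.smul_comp, map_smul])
    (fun x y y' => by rw [hI.add, Preadditive.comp_add, map_add])
    (fun r x y => by rw [hI.smul, Linear.comp_smul, map_smul])
  let bq : (Y ⟶ Y) →ₗ[ℝ] (Y ⟶ Y) →ₗ[ℝ] ℝ := LinearMap.mk₂ ℝ (fun x y => φ (x ≫ dag y))
    (fun x x' y => by rw [Preadditive.add_comp, map_add])
    (fun r x y => by rw [Linear.smul_comp, map_smul])
    (fun x y y' => by rw [hI.add, Preadditive.comp_add, map_add])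
    (fun r x y => by rw [hI.smul, Linear.comp_smul, map_smul])
  obtain ⟨g, hg⟩ := desc N gq (fun x hx y => ht0 _ (hr x hx _)) (fun x y hy =>
    ht0 _ (hl _ (hd y hy) _))
  obtain ⟨b, hb⟩ := desc N bq (fun x hx y => hN _ (hr x hx _)) (fun x y hy =>
    hN _ (hl _ (hd y hy) _))
  have hsw : ∀ x y : Y ⟶ Y, dag (x ≫ dag y) = y ≫ dag x := fun x y => by
    rw [hI.comp, hI.invol]
  obtain ⟨z, hz0, μ, hμ, hzμ⟩ := spec g b (fun x y => by
      obtain ⟨x, rfl⟩ := N.mkQ_surjective x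
      obtain ⟨y, rfl⟩ := N.mkQ_surjective y
      rw [hg, hg]
      show t (x ≫ dag y) = t (y ≫ dag x)
      rw [← htd, hsw]) (fun x hx => by
      obtain ⟨x, rfl⟩ := N.mkQ_surjective x
      rw [hg]
      exact htp x fun h => hx ((Submodule.Quotient.mk_eq_zero _).2 h)) (fun x y => by
      obtain ⟨x, rfl⟩ := N.mkQ_surjective x
      obtain ⟨y, rfl⟩ := N.mkQ_surjective y
      rw [hb, hb]
      show φ (x ≫ dag y) = φ (y ≫ dag x)
      rw [← hφd, hsw]) (e := N.mkQ (𝟙 Y)) (by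
      rw [hb]
      show φ (𝟙 Y ≫ dag (𝟙 Y)) < 0
      rw [← hBB, G.map_id]
      exact hneg)
  obtain ⟨z, rfl⟩ := N.mkQ_surjective z
  have hzN : z ∉ N := fun h => hz0 ((Submodule.Quotient.mk_eq_zero _).2 h)
  have hzy : ∀ y : Y ⟶ Y, φ (z ≫ dag y) = μ * t (z ≫ dag y) := by
    intro y
    have h1 := hzμ (N.mkQ y)
    rw [hb, hg] at h1
    exact h1
  -- step 3
  have h3 : (G.map z).hom a ∈ S Y := by
    refine mem_of_gen hS (hperp Y z) fun Z c => ?_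
    have e1 : (G.map c).hom ((G.map z).hom a) = (G.map (z ≫ c)).hom a := by
      rw [G.map_comp]
      rfl
    have e2 : (z ≫ c) ≫ dag (z ≫ c) = z ≫ dag (z ≫ c ≫ dag c) := by
      rw [hI.comp, hI.comp z, hI.comp c, hI.invol]
      simp only [Category.assoc]
    rw [e1, hBB, e2, hzy, ← e2]
    exact mul_nonpos_of_nonpos_of_nonneg hμ.le (htn Z (z ≫ c))
  have h4 := hperp Y z _ h3
  rw [hBB, hzy] at h4
  have h5 := htp z hzN
  nlinarith

end Pool.Agent.Run7.h641.IL
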