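import Pool.Agent.Run7.h641.HP.Main

/-!
# The numbers of the positive and of the negative squares of a real symmetric bilinear form
-/

set_option autoImplicit false

open Module
open Pool.Agent.N64.AF Pool.Agent.Run7.h184.AJ

namespace Pool.Agent.Run7.h641.IL

universe x

variable {V : Type x} [AddCommGroup V] [Module ℝ V]

/-- There are `n` vectors such that the form `q` is negative on all their nonzero combinations. -/
def NegFam (q : V → V → ℝ) (n : ℕ) : Prop :=
  ∃ v : Fin n → V, ∀ c : Fin n → ℝ, c ≠ 0 → q (∑ i, c i • v i) (∑ i, c i • v i) < 0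

/-- The number of the negative squares of the form `q`: the largest dimension of a space on which it
is negative definite. -/
noncomputable def negIndex (q : V → V → ℝ) : ℕ∞ := ⨆ (n : ℕ) (_ : NegFam q n), (n : ℕ∞)

/-- The number of the positive squares. -/
noncomputable def posIndex (q : V → V → ℝ) : ℕ∞ := negIndex fun a b => -q a b

lemma NegFam.zero (q : V → V → ℝ) : NegFam q 0 :=
  ⟨fun i => i.elim0, fun c hc => absurd (Subsingleton.elim c 0) hc⟩

lemma NegFam.succ {q : V → V → ℝ} {n : ℕ} (h : NegFam q (n + 1)) : NegFam q n := by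
  obtain ⟨v, hv⟩ := h
  refine ⟨fun i => v i.castSucc, fun c hc => ?_⟩
  have h1 := hv (Fin.snoc c 0) (fun h0 => hc (funext fun i => by
    have h2 := congrFun h0 i.castSucc
    rwa [Fin.snoc_castSucc] at h2))
  rw [Fin.sum_univ_castSucc] at h1
  simpa only [Fin.snoc_castSucc, Fin.snoc_last, zero_smul, add_zero] using h1

lemma NegFam.mono {q : V → V → ℝ} {m n : ℕ} (hmn : m ≤ n) (h : NegFam q n) : NegFam q m := by
  induction n, hmn using Nat.le_induction with
  | base => exact h
  | succ n _ ih => exact ih h.succ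

lemma le_negIndex_iff {q : V → V → ℝ} {n : ℕ} : (n : ℕ∞) ≤ negIndex q ↔ NegFam q n := by
  constructor
  · intro h
    rcases Nat.eq_zero_or_pos n with rfl | hn
    · exact NegFam.zero q
    · have h1 : ((n - 1 : ℕ) : ℕ∞) < negIndex q := by
        refine lt_of_lt_of_le ?_ h
        exact_mod_cast Nat.sub_lt hn Nat.one_pos
      unfold negIndex at h1
      rw [lt_iSup_iff] at h1
      obtain ⟨m, h1⟩ := h1
      rw [lt_iSup_iff] at h1
      obtain ⟨hm, h1⟩ := h1
      have h2 : n - 1 < m := by exact_mod_cast h1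
      exact hm.mono (by omega)
  · intro h
    exact le_iSup₂ (f := fun (n : ℕ) (_ : NegFam q n) => (n : ℕ∞)) n h

lemma negIndex_le {q : V → V → ℝ} {a : ℕ∞} (h : ∀ n, NegFam q n → (n : ℕ∞) ≤ a) :
    negIndex q ≤ a := iSup₂_le h

lemma enat_ext {a b : ℕ∞} (h : ∀ n : ℕ, (n : ℕ∞) ≤ a ↔ (n : ℕ∞) ≤ b) : a = b := by
  refine le_antisymm ?_ ?_
  · exact ENat.forall_natCast_le_iff_le.1 fun n hn => (h n).1 hn
  · exact ENat.forall_natCast_le_iff_le.1 fun n hn => (h n).2 hn

lemma dimE_lt_fin {W : Type x} [AddCommGroup W] [Module ℝ W] {n : ℕ} :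
    (n : ℕ∞) ≤ dimE ℝ W ↔ ∃ s : Fin n → W, LinearIndependent ℝ s := by
  constructor
  · intro h
    have h1 : (n : Cardinal) ≤ Module.rank ℝ W := by
      unfold dimE at h
      by_cases hf : Module.Finite ℝ W
      · rw [← finrank_eq_rank] at h ⊢
        rw [Cardinal.toENat_nat] at h
        exact_mod_cast h
      · have h2 : Cardinal.aleph0 ≤ Module.rank ℝ W := by
          by_contra h3
          exact hf (Module.rank_lt_aleph0_iff.1 (not_le.1 h3))
        exact (Cardinal.natCast_lt_aleph0).le.trans h2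
    obtain ⟨t, ht, hli⟩ := le_rank_iff_exists_linearIndependent_finset.1 h1
    have e : Fin n ≃ t := (Finset.equivFinOfCardEq ht).symm
    exact ⟨fun i => (e i).1, hli.comp e e.injective⟩
  · rintro ⟨s, hs⟩
    by_cases hf : Module.Finite ℝ W
    · rw [dimE_eq]
      have h2 := hs.fintype_card_le_finrank
      rw [Fintype.card_fin] at h2
      exact_mod_cast h2
    · rw [dimE_top hf]
      exact le_top

/-- Upper bound. -/
lemma neg_le (B : V →ₗ[ℝ] V →ₗ[ℝ] ℝ) (S : Submodule ℝ V)
    (h : ∀ a, (∀ s ∈ S, B a s = 0) → 0 ≤ B a a) {n : ℕ}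
    (hn : NegFam (fun a b => B a b) n) : (n : ℕ∞) ≤ dimE ℝ S := by
  by_cases hf : Module.Finite ℝ S
  · rw [dimE_eq]
    obtain ⟨v, hv⟩ := hn
    let m : (Fin n → ℝ) →ₗ[ℝ] Module.Dual ℝ S :=
      ((LinearMap.lcomp ℝ ℝ S.subtype) ∘ₗ B) ∘ₗ Fintype.linearCombination ℝ v
    have hm : Function.Injective m := by
      rw [← LinearMap.ker_eq_bot, Submodule.eq_bot_iff]
      intro c hc
      by_contra hc0
      have h1 := hv c hc0
      have h2 := h (∑ i, c i • v i) (fun s hs => by
        have h3 := LinearMap.congr_fun (LinearMap.mem_ker.1 hc) ⟨s, hs⟩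
        exact h3)
      exact absurd h1 (not_lt.2 h2)
    have h4 := LinearMap.finrank_le_finrank_of_injective hm
    rw [Module.finrank_fin_fun, Subspace.dual_finrank_eq] at h4
    exact_mod_cast h4
  · rw [dimE_top hf]
    exact le_top

/-- Dual vectors. -/
lemma dual_vec (B : V →ₗ[ℝ] V →ₗ[ℝ] ℝ) (hnd : ∀ a, (∀ b, B a b = 0) → a = 0) {n : ℕ}
    {s : Fin n → V} (hs : LinearIndependent ℝ s) (j : Fin n) :
    ∃ v : V, ∀ i, B (s i) v = if i = j then 1 else 0 := by
  let m : V →ₗ[ℝ] (Fin n → ℝ) := LinearMap.pi fun i => B (s i)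
  have hm : LinearMap.range m = ⊤ := by
    by_contra hne
    obtain ⟨f, hf0, hf⟩ := Submodule.exists_le_ker_of_lt_top _ (lt_top_iff_ne_top.2 hne)
    apply hf0
    have h1 : ∀ x, f x = ∑ i, x i * f (Pi.single i 1) := by
      intro x
      conv_lhs => rw [← Finset.univ_sum_single x]
      rw [map_sum]
      refine Finset.sum_congr rfl fun i _ => ?_
      have h2 : (Pi.single i (x i) : Fin n → ℝ) = x i • Pi.single i 1 := by
        rw [← Pi.single_smul, smul_eq_mul, mul_one]
      rw [h2, map_smul, smul_eq_mul]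
    have h3 : ∑ i, f (Pi.single i 1) • s i = 0 := by
      apply hnd
      intro b
      have h4 : f (m b) = 0 := hf ⟨b, rfl⟩
      rw [h1] at h4
      rw [map_sum, LinearMap.sum_apply]
      refine Eq.trans (Finset.sum_congr rfl fun i _ => ?_) h4
      rw [map_smul, LinearMap.smul_apply, smul_eq_mul, mul_comm]
      rfl
    have h5 := Fintype.linearIndependent_iff.1 hs _ h3
    apply LinearMap.ext
    intro x
    rw [h1, LinearMap.zero_apply]
    exact Finset.sum_eq_zero fun i _ => by rw [h5, mul_zero]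
  have h6 : (Pi.single j 1 : Fin n → ℝ) ∈ LinearMap.range m := by rw [hm]; trivial
  obtain ⟨v, hv⟩ := h6
  refine ⟨v, fun i => ?_⟩
  have h7 := congrFun hv i
  rw [Pi.single_apply] at h7
  exact h7

lemma expand (B : V →ₗ[ℝ] V →ₗ[ℝ] ℝ) {n : ℕ} (c : Fin n → ℝ) (v w : Fin n → V) :
    B (∑ i, c i • v i) (∑ i, c i • w i) = ∑ i, ∑ j, c i * (c j * B (v i) (w j)) := by
  rw [LinearMap.map_sum₂]
  refine Finset.sum_congr rfl fun i _ => ?_
  rw [map_smul, LinearMap.smul_apply, map_sum, smul_eq_mul, Finset.mul_sum]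
  refine Finset.sum_congr rfl fun j _ => ?_
  rw [map_smul, smul_eq_mul]

/-- Lower bound. -/
lemma neg_ge (B : V →ₗ[ℝ] V →ₗ[ℝ] ℝ) (hsymm : ∀ a b, B a b = B b a)
    (hnd : ∀ a, (∀ b, B a b = 0) → a = 0) (S : Submodule ℝ V) (h : ∀ s ∈ S, B s s ≤ 0) {n : ℕ}
    (hn : (n : ℕ∞) ≤ dimE ℝ S) : NegFam (fun a b => B a b) n := by
  obtain ⟨s', hs'⟩ := dimE_lt_fin.1 hn
  have hs : LinearIndependent ℝ (fun i => (s' i : V)) :=
    hs'.map' S.subtype (Submodule.ker_subtype S)
  choose v hv using fun j => dual_vec B hnd hs j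
  set M : ℝ := ∑ i, ∑ j, |B (v i) (v j)| with hM
  have hM0 : 0 ≤ M := Finset.sum_nonneg fun i _ => Finset.sum_nonneg fun j _ => abs_nonneg _
  set t : ℝ := 1 / (M + 1) with ht
  have ht0 : 0 < t := by positivity
  have htM : t * M < 1 := by
    rw [ht, div_mul_eq_mul_div, one_mul, div_lt_one (by linarith)]
    linarith
  refine ⟨fun i => (s' i : V) - t • v i, fun c hc => ?_⟩
  set σ : V := ∑ i, c i • (s' i : V) with hσ
  set ν : V := ∑ i, c i • v i with hν
  set Q : ℝ := ∑ i, c i ^ 2 with hQ
  have hQ0 : 0 < Q := by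
    obtain ⟨i, hi⟩ := Function.ne_iff.1 hc
    refine lt_of_lt_of_le (pow_pos (abs_pos.2 hi) 2) ?_
    rw [sq_abs]
    exact Finset.single_le_sum (f := fun i => c i ^ 2) (fun j _ => sq_nonneg _)
      (Finset.mem_univ i)
  have e1 : ∑ i, c i • ((s' i : V) - t • v i) = σ - t • ν := by
    rw [hσ, hν, Finset.smul_sum, ← Finset.sum_sub_distrib]
    refine Finset.sum_congr rfl fun i _ => ?_
    rw [smul_sub, smul_comm]
  have e2 : B σ ν = Q := by
    rw [hσ, hν, expand, hQ]
    refine Finset.sum_congr rfl fun i _ => ?_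
    have h1 : ∀ j, c i * (c j * B (s' i : V) (v j)) = if i = j then c i * c j else 0 := by
      intro j
      rw [hv j i]
      split_ifs <;> simp
    rw [Finset.sum_congr rfl fun j _ => h1 j, Finset.sum_ite_eq, if_pos (Finset.mem_univ i), sq]
  have e3 : B ν ν ≤ M * Q := by
    rw [hν, expand, hM, Finset.sum_mul]
    refine Finset.sum_le_sum fun i _ => ?_
    rw [Finset.sum_mul]
    refine Finset.sum_le_sum fun j _ => ?_
    have h2 : c i * (c j * B (v i) (v j)) ≤ |c i * c j| * |B (v i) (v j)| := by
      rw [← mul_assoc, ← abs_mul]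
      exact le_abs_self _
    have h3 : |c i * c j| ≤ Q := by
      have h4 : c i ^ 2 ≤ Q := Finset.single_le_sum (f := fun i => c i ^ 2)
        (fun j _ => sq_nonneg _) (Finset.mem_univ i)
      have h5 : c j ^ 2 ≤ Q := Finset.single_le_sum (f := fun i => c i ^ 2)
        (fun j _ => sq_nonneg _) (Finset.mem_univ j)
      rw [abs_le]
      constructor <;> nlinarith [sq_nonneg (c i + c j), sq_nonneg (c i - c j)]
    calc c i * (c j * B (v i) (v j)) ≤ |c i * c j| * |B (v i) (v j)| := h2
      _ ≤ Q * |B (v i) (v j)| := by gcongr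
      _ = |B (v i) (v j)| * Q := mul_comm _ _
  have e4 : B σ σ ≤ 0 := by
    apply h
    rw [hσ]
    exact Submodule.sum_mem _ fun i _ => S.smul_mem _ (s' i).2
  have e5 : B (σ - t • ν) (σ - t • ν) = B σ σ - 2 * t * B σ ν + t ^ 2 * B ν ν := by
    simp only [map_sub, map_smul, LinearMap.sub_apply, LinearMap.smul_apply, smul_eq_mul]
    rw [hsymm ν σ]
    ring
  show B (∑ i, c i • ((s' i : V) - t • v i)) (∑ i, c i • ((s' i : V) - t • v i)) < 0
  rw [e1, e5, e2]
  have e6 : t ^ 2 * B ν ν ≤ t * Q := by
    calc t ^ 2 * B ν ν ≤ t ^ 2 * (M * Q) := by gcongr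
      _ = (t * M) * (t * Q) := by ring
      _ ≤ 1 * (t * Q) := by gcongr
      _ = t * Q := one_mul _
  nlinarith [mul_pos ht0 hQ0]

/-- The number of the negative squares and maximal subspaces. -/
lemma negIndex_eq (B : V →ₗ[ℝ] V →ₗ[ℝ] ℝ) (hsymm : ∀ a b, B a b = B b a)
    (hnd : ∀ a, (∀ b, B a b = 0) → a = 0) (S : Submodule ℝ V) (h : ∀ s ∈ S, B s s ≤ 0)
    (h' : ∀ a, (∀ s ∈ S, B a s = 0) → 0 ≤ B a a) : negIndex (fun a b => B a b) = dimE ℝ S :=
  enat_ext fun _ => le_negIndex_iff.trans
    ⟨fun hn => neg_le B S h' hn, fun hn => neg_ge B hsymm hnd S h hn⟩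

/-- The sum. -/
lemma add_index (B : V →ₗ[ℝ] V →ₗ[ℝ] ℝ) (hsymm : ∀ a b, B a b = B b a)
    (hnd : ∀ a, (∀ b, B a b = 0) → a = 0) (S : Submodule ℝ V) (h : ∀ s ∈ S, B s s ≤ 0)
    (h' : ∀ a, (∀ s ∈ S, B a s = 0) → 0 ≤ B a a) :
    dimE ℝ V = posIndex (fun a b => B a b) + negIndex (fun a b => B a b) := by
  refine le_antisymm ?_ ?_
  · -- the orthogonal complement
    let P : Submodule ℝ V :=
      { carrier := {a | ∀ s ∈ S, B a s = 0}
        zero_mem' := fun s _ => by rw [map_zero, LinearMap.zero_apply]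
        add_mem' := fun {a b} ha hb s hs => by
          rw [map_add, LinearMap.add_apply, ha s hs, hb s hs, add_zero]
        smul_mem' := fun c a ha s hs => by
          rw [map_smul, LinearMap.smul_apply, ha s hs, smul_zero] }
    have hP : dimE ℝ P ≤ posIndex (fun a b => B a b) := by
      refine ENat.forall_natCast_le_iff_le.1 fun n hn => ?_
      refine le_negIndex_iff.2 ?_
      exact neg_ge (-B) (fun a b => by
          simp only [LinearMap.neg_apply]
          rw [hsymm]) (fun a ha => hnd a fun b => by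
          have := ha b
          simp only [LinearMap.neg_apply] at this
          linarith) P (fun s hs => by
          simp only [LinearMap.neg_apply]
          have := h' s hs
          linarith) hn
    rw [negIndex_eq B hsymm hnd S h h', ← dimE_quot_add P, add_comm]
    refine add_le_add hP ?_
    by_cases hf : Module.Finite ℝ S
    · let m : V →ₗ[ℝ] Module.Dual ℝ S := (LinearMap.lcomp ℝ ℝ S.subtype) ∘ₗ B
      have hker : P = LinearMap.ker m := by
        ext a
        rw [LinearMap.mem_ker]
        constructor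
        · intro ha
          ext s
          exact ha s.1 s.2
        · intro ha s hs
          exact LinearMap.congr_fun ha ⟨s, hs⟩
      have hi : Function.Injective (P.liftQ m hker.le) := by
        rw [← LinearMap.ker_eq_bot, Submodule.ker_liftQ_eq_bot _ _ _ hker.ge]
      have : Module.Finite ℝ (V ⧸ P) := Module.Finite.of_injective _ hi
      rw [dimE_eq, dimE_eq]
      have h4 := LinearMap.finrank_le_finrank_of_injective hi
      rw [Subspace.dual_finrank_eq] at h4
      exact_mod_cast h4
    · rw [dimE_top hf]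
      exact le_top
  · -- independence
    have key : ∀ n m : ℕ, NegFam (fun a b => -B a b) n → NegFam (fun a b => B a b) m →
        ((n + m : ℕ) : ℕ∞) ≤ dimE ℝ V := by
      rintro n m ⟨v, hv⟩ ⟨w, hw⟩
      by_cases hf : Module.Finite ℝ V
      · rw [dimE_eq]
        let f : ((Fin n → ℝ) × (Fin m → ℝ)) →ₗ[ℝ] V :=
          (Fintype.linearCombination ℝ v).coprod (Fintype.linearCombination ℝ w)
        have hi : Function.Injective f := by
          rw [← LinearMap.ker_eq_bot, Submodule.eq_bot_iff]
          rintro ⟨c, d⟩ hcd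
          have h1 : (∑ i, c i • v i) + ∑ i, d i • w i = 0 := LinearMap.mem_ker.1 hcd
          have h2 : ∑ i, c i • v i = -∑ i, d i • w i := eq_neg_of_add_eq_zero_left h1
          have h3 : B (∑ i, c i • v i) (∑ i, c i • v i) =
              B (∑ i, d i • w i) (∑ i, d i • w i) := by
            rw [h2]
            simp only [map_neg, LinearMap.neg_apply, neg_neg]
          have hc : c = 0 := by
            by_contra hc
            have h4 : -B (∑ i, c i • v i) (∑ i, c i • v i) < 0 := hv c hc
            by_cases hd : d = 0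
            · rw [hd] at h3
              simp only [Pi.zero_apply, zero_smul, Finset.sum_const_zero, map_zero] at h3
              rw [h3] at h4
              simp at h4
            · have h5 : B (∑ i, d i • w i) (∑ i, d i • w i) < 0 := hw d hd
              rw [h3] at h4
              linarith
          have hd : d = 0 := by
            by_contra hd
            have h5 : B (∑ i, d i • w i) (∑ i, d i • w i) < 0 := hw d hd
            rw [← h3, hc] at h5
            simp at h5
          rw [hc, hd]
          rfl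
        have h4 := LinearMap.finrank_le_finrank_of_injective hi
        rw [Module.finrank_prod, Module.finrank_fin_fun, Module.finrank_fin_fun] at h4
        exact_mod_cast h4
      · rw [dimE_top hf]
        exact le_top
    refine ENat.forall_natCast_le_iff_le.1 fun k hk => ?_
    -- choose n, m with n + m = k
    by_cases h1 : posIndex (fun a b => B a b) = ⊤
    · have h2 : NegFam (fun a b => -B a b) k := le_negIndex_iff.1 (by
        unfold posIndex at h1
        rw [h1]
        exact le_top)
      exact key k 0 h2 (NegFam.zero _)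
    · by_cases h2 : negIndex (fun a b => B a b) = ⊤
      · have h3 : NegFam (fun a b => B a b) k := le_negIndex_iff.1 (by
          rw [h2]
          exact le_top)
        have := key 0 k (NegFam.zero _) h3
        rwa [zero_add] at this
      · obtain ⟨n, hn⟩ := ENat.ne_top_iff_exists.1 h1
        obtain ⟨m, hm⟩ := ENat.ne_top_iff_exists.1 h2
        have h3 := key n m (le_negIndex_iff.1 hn.le) (le_negIndex_iff.1 hm.le)
        refine hk.trans ?_
        rw [← hn, ← hm]
        exact_mod_cast h3

/-- A form which is nonnegative on a subspace: isotropic elements are in the radical of it. -/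
lemma radical_on (B : V →ₗ[ℝ] V →ₗ[ℝ] ℝ) (hs : ∀ a b, B a b = B b a) (P : Submodule ℝ V)
    (hpos : ∀ a ∈ P, 0 ≤ B a a) {s : V} (hsP : s ∈ P) (hss : B s s = 0) {b : V} (hb : b ∈ P) :
    B s b = 0 := by
  by_contra hne
  have h1 : ∀ r : ℝ, 0 ≤ 2 * r * B s b + B b b := by
    intro r
    have h2 := hpos (r • s + b) (P.add_mem (P.smul_mem r hsP) hb)
    simp only [map_add, map_smul, LinearMap.add_apply, LinearMap.smul_apply, smul_eq_mul] at h2
    rw [hss, hs b s] at h2
    linarith
  have h3 := h1 (-(B b b + 1) / (2 * B s b))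
  have h4 : 2 * (-(B b b + 1) / (2 * B s b)) * B s b = -(B b b + 1) := by
    field_simp
  rw [h4] at h3
  linarith

/-- The double orthogonal of a subspace of finite dimension. -/
lemma double_perp (B : V →ₗ[ℝ] V →ₗ[ℝ] ℝ) (hsymm : ∀ a b, B a b = B b a)
    (hnd : ∀ a, (∀ b, B a b = 0) → a = 0) (S : Submodule ℝ V) [Module.Finite ℝ S] {x : V}
    (hx : ∀ c, (∀ s ∈ S, B c s = 0) → B x c = 0) : x ∈ S := by
  let bas := Module.finBasis ℝ S
  have hs : LinearIndependent ℝ (fun i => (bas i : V)) :=
    bas.linearIndependent.map' S.subtype (Submodule.ker_subtype S)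
  choose v hv using fun j => dual_vec B hnd hs j
  have h1 : ∀ u : V, B x u = ∑ i, B (bas i) u * B x (v i) := by
    intro u
    have h2 := hx (u - ∑ i, B (bas i) u • v i) (fun s hs' => by
      have h3 : ∀ j, B (bas j : V) (u - ∑ i, B (bas i) u • v i) = 0 := by
        intro j
        rw [map_sub, map_sum]
        have h4 : ∀ i, B (bas j : V) (B (bas i) u • v i) = if j = i then B (bas i) u else 0 := by
          intro i
          rw [map_smul, smul_eq_mul, hv i j]
          split_ifs <;> simp
        rw [Finset.sum_congr rfl fun i _ => h4 i, Finset.sum_ite_eq, if_pos (Finset.mem_univ j),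
          sub_self]
      have h5 : (⟨s, hs'⟩ : S) = ∑ i, bas.repr ⟨s, hs'⟩ i • bas i := (bas.sum_repr _).symm
      have h6 : s = ∑ i, bas.repr ⟨s, hs'⟩ i • (bas i : V) := by
        have h7 := congrArg S.subtype h5
        rw [map_sum] at h7
        exact h7
      rw [hsymm, h6, LinearMap.map_sum₂]
      refine Finset.sum_eq_zero fun i _ => ?_
      rw [map_smul, LinearMap.smul_apply, h3, smul_zero])
    rw [map_sub, map_sum, sub_eq_zero] at h2
    rw [h2]
    exact Finset.sum_congr rfl fun i _ => by rw [map_smul, smul_eq_mul]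
  have h7 : x = ∑ i, B x (v i) • (bas i : V) := by
    rw [← sub_eq_zero]
    refine hnd _ fun u => ?_
    rw [map_sub, LinearMap.sub_apply, LinearMap.map_sum₂, h1 u, sub_eq_zero]
    refine Finset.sum_congr rfl fun i _ => ?_
    rw [map_smul, LinearMap.smul_apply, smul_eq_mul, mul_comm]
  rw [h7]
  exact Submodule.sum_mem _ fun i _ => S.smul_mem _ (bas i).2

end Pool.Agent.Run7.h641.IL
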