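import Pool.Agent.Run7.h641.IL.Defs

/-!
# The law of inertia for forms on additive functors
-/

set_option autoImplicit false
set_option linter.unusedSectionVars false

open CategoryTheory Limits MonoidalCategory Module Filter Topology
open Pool.Agent.Y112.SR Pool.Agent.Y112.KD Pool.Agent.N64.AF Pool.Agent.Run7.h184.AJ
open Pool.Agent.Y116.MT (tr)
open scoped ENNReal

namespace Pool.Agent.Run7.h641.IL

universe v u w x

section Quot

variable {V : Type x} [AddCommGroup V] [Module ℝ V]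

/-- The number of the squares of a form induced from a quotient. -/
lemma negIndex_mk (N : Submodule ℝ V) (B : (V ⧸ N) →ₗ[ℝ] (V ⧸ N) →ₗ[ℝ] ℝ) (q : V → V → ℝ)
    (h : ∀ a b, q a b = B (N.mkQ a) (N.mkQ b)) :
    negIndex q = negIndex fun a b => B a b := by
  refine enat_ext fun n => le_negIndex_iff.trans (Iff.trans ?_ le_negIndex_iff.symm)
  constructor
  · rintro ⟨v, hv⟩
    refine ⟨fun i => N.mkQ (v i), fun c hc => ?_⟩
    have h1 := hv c hc
    rw [h] at h1
    simpa only [map_sum, map_smul] using h1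
  · rintro ⟨v, hv⟩
    choose w hw using fun i => N.mkQ_surjective (v i)
    refine ⟨w, fun c hc => ?_⟩
    have h1 := hv c hc
    rw [h]
    simp only [map_sum, map_smul, hw] at h1 ⊢
    exact h1

end Quot

variable {C : Type u} [Category.{v} C] [Preadditive C] [MonoidalCategory C]
  [MonoidalPreadditive C] [SymmetricCategory C] [RightRigidCategory C] [Linear ℝ C]
  [MonoidalLinear ℝ C] {K : Type w} [Field K] [IsAlgClosed K] [Algebra ℝ K]
  {R : SuperRealisation C K} {G : C ⥤ ModuleCat.{x} ℝ}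
  {dag : ∀ ⦃Y Z : C⦄, (Y ⟶ Z) → (Z ⟶ Y)} (F : Form G dag)

lemma exists_quo (Y : C) : ∃ q' : (G.obj Y ⧸ F.ker Y) →ₗ[ℝ] (G.obj Y ⧸ F.ker Y) →ₗ[ℝ] ℝ,
    ∀ a b, q' ((F.ker Y).mkQ a) ((F.ker Y).mkQ b) = F.B Y a b :=
  desc (F.ker Y) (F.B Y) (fun x hx y => by
    rw [LinearMap.mem_ker.1 hx]
    rfl) (fun x y hy => by
    rw [F.symm, LinearMap.mem_ker.1 hy]
    rfl)

/-- The form on the quotient by the kernel. -/
noncomputable def qB (Y : C) : (G.obj Y ⧸ F.ker Y) →ₗ[ℝ] (G.obj Y ⧸ F.ker Y) →ₗ[ℝ] ℝ :=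
  (exists_quo F Y).choose

lemma qB_mk (Y : C) (a b : G.obj Y) :
    qB F Y ((F.ker Y).mkQ a) ((F.ker Y).mkQ b) = F.B Y a b := (exists_quo F Y).choose_spec a b

lemma qB_nd (Y : C) (a : G.obj Y ⧸ F.ker Y) (h : ∀ b, qB F Y a b = 0) : a = 0 := by
  obtain ⟨a, rfl⟩ := (F.ker Y).mkQ_surjective a
  refine (Submodule.Quotient.mk_eq_zero _).2 (LinearMap.mem_ker.2 (LinearMap.ext fun b => ?_))
  rw [← qB_mk]
  exact h _

lemma ker_stab : IsStab G F.ker := by
  intro Y Z f a ha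
  refine LinearMap.mem_ker.2 (LinearMap.ext fun b => ?_)
  have h1 : F.B Y a = 0 := LinearMap.mem_ker.1 ha
  rw [F.adj, h1]
  rfl

/-- The functor of the quotients by the kernels. -/
noncomputable abbrev quoK : C ⥤ ModuleCat.{x} ℝ := quoS G F.ker (ker_stab F)

/-- The functor of the kernels. -/
noncomputable abbrev kerK : C ⥤ ModuleCat.{x} ℝ := sub G F.ker (ker_stab F)

/-- The form on the functor of the quotients. -/
noncomputable def frm : Form (quoK F) dag where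
  B Y := qB F Y
  symm Y a b := by
    obtain ⟨a, rfl⟩ := (F.ker Y).mkQ_surjective a
    obtain ⟨b, rfl⟩ := (F.ker Y).mkQ_surjective b
    exact (qB_mk F Y a b).trans ((F.symm Y a b).trans (qB_mk F Y b a).symm)
  adj {Y Z} f a b := by
    obtain ⟨a, rfl⟩ := (F.ker Y).mkQ_surjective a
    obtain ⟨b, rfl⟩ := (F.ker Z).mkQ_surjective b
    have h1 : ((quoK F).map f).hom ((F.ker Y).mkQ a) = (F.ker Z).mkQ ((G.map f).hom a) := rfl
    have h2 : ((quoK F).map (dag f)).hom ((F.ker Z).mkQ b) =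
        (F.ker Y).mkQ ((G.map (dag f)).hom b) := rfl
    rw [h1, h2]
    exact (qB_mk F Z _ _).trans ((F.adj f a b).trans (qB_mk F Y _ _).symm)

variable {F}

/-- The ordinary trace. -/
lemma exists_t (hR : IsReal ℝ R) {Y : C} (hY : R.CPlus Y) : ∃ t : (Y ⟶ Y) →ₗ[ℝ] ℝ,
    (∀ x, algebraMap ℝ K (t x) = rtr R x) ∧
    ∀ {Z : C} (f : Y ⟶ Z), NumTriv f ↔ ∀ g : Z ⟶ Y, t (f ≫ g) = 0 := by
  obtain ⟨w, hw⟩ := P1aux.of_cplus hY
  obtain ⟨τ, -, hτ⟩ := exists_tau hR Y
  have h1 : ∀ x : Y ⟶ Y, algebraMap ℝ K (τ (x ≫ w)) = rtr R x := by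
    intro x
    rw [rtr, hτ, Functor.map_comp, hw, Category.assoc, R.par_sq, Category.comp_id]
  refine ⟨τ ∘ₗ Linear.rightComp ℝ Y w, fun x => h1 x, fun {Z} f => ?_⟩
  constructor
  · intro hf g
    have h2 := (tr_eq_zero_iff hR _).1 (hf (g ≫ w))
    rw [← hτ, ← map_zero (algebraMap ℝ K)] at h2
    have h3 := (algebraMap ℝ K).injective h2
    show τ ((f ≫ g) ≫ w) = 0
    rw [Category.assoc]
    exact h3
  · intro hf g
    rw [tr_eq_zero_iff hR]
    have h2 : τ ((f ≫ (g ≫ w)) ≫ w) = 0 := hf (g ≫ w)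
    have h3 := h1 (f ≫ (g ≫ w))
    rw [h2, map_zero] at h3
    have h4 : R.H.map (f ≫ g) ≫ R.par Y = R.H.map (f ≫ g ≫ w) := by
      rw [← hw, ← Functor.map_comp, Category.assoc]
    rw [h4]
    exact h3.symm

/-- The adjoint of a numerically trivial morphism. -/
lemma dag_num (hR : IsReal ℝ R) (hp : IsPositive R dag) {Y Z : C} (hY : R.CPlus Y)
    (hZ : R.CPlus Z) {f : Y ⟶ Z} (hf : NumTriv f) : NumTriv (dag f) := by
  obtain ⟨t, ht, htn⟩ := exists_t hR hY
  obtain ⟨t', ht', htn'⟩ := exists_t hR hZ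
  have hinj := (algebraMap ℝ K).injective
  have htd : ∀ x, t' (dag x) = t' x := fun x => hinj (by rw [ht', ht', hp.trace])
  have hfin := R.finite Y
  have hfin' := R.finite Z
  have htc : ∀ (x : Z ⟶ Y) (y : Y ⟶ Z), t' (x ≫ y) = t (y ≫ x) := fun x y => hinj (by
    rw [ht, ht', rtr, rtr, Functor.map_comp, Functor.map_comp, ModuleCat.hom_comp,
      ModuleCat.hom_comp]
    exact LinearMap.trace_comp_comm' _ _)
  rw [htn']
  intro g
  rw [← htd, hp.comp, hp.invol, htc]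
  exact (htn f).1 hf _

lemma NPr_iff {Y : C} {k : ℕ} {f : Y ⟶ Y} : NPr (numIdeal ℝ Y Y) k f ↔ NumProd k f := by
  induction k generalizing f with
  | zero => exact Iff.rfl
  | succ k ih =>
    constructor
    · rintro ⟨g, h, h1, h2, h3⟩
      exact ⟨g, h, ih.1 h1, h2, h3⟩
    · rintro ⟨g, h, h1, h2, h3⟩
      exact ⟨g, h, ih.2 h1, h2, h3⟩

/-- Nonnegativity on the orthogonal of the maximal family. -/
lemma nonneg_perp (hR : IsReal ℝ R) (hp : IsPositive R dag) {Y : C} (hY : R.CPlus Y)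
    [G.Additive] [G.Linear ℝ] {S : ∀ Y, Submodule ℝ (G.obj Y)}
    (hS : IsMaxNeg F S) {k : ℕ} (hk : ∀ f : Y ⟶ Y, NumProd k f → ∀ a,
      F.B Y ((G.map f).hom a) = 0) (a : G.obj Y) (ha : ∀ s ∈ S Y, F.B Y a s = 0) :
    0 ≤ F.B Y a a := by
  obtain ⟨t, ht, htn⟩ := exists_t hR hY
  have hinj := (algebraMap ℝ K).injective
  have hfin := finite_num hR (Λ := ℝ) Y Y
  have h0 : ∀ x : Y ⟶ Y, NumTriv x → t x = 0 := by
    intro x hx
    have := (htn x).1 hx (𝟙 Y)
    rwa [Category.comp_id] at this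
  have hl : ∀ x ∈ numIdeal ℝ Y Y, ∀ g : Y ⟶ Y, g ≫ x ∈ numIdeal ℝ Y Y := by
    intro x hx g
    have := NumTriv.comp hR hx g (𝟙 Y)
    rwa [Category.comp_id] at this
  have hr : ∀ {Z : C} (x : Y ⟶ Z), NumTriv x → ∀ g : Z ⟶ Y, NumTriv (x ≫ g) := by
    intro Z x hx g
    have := NumTriv.comp hR hx (𝟙 Y) g
    rwa [Category.id_comp] at this
  refine key hp.toIsInv hS (numIdeal ℝ Y Y) hl (fun x hx g => hr x hx g)
    (fun x hx => dag_num hR hp hY hY hx) t h0 (fun x => hinj (by rw [ht, ht, hp.trace]))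
    (fun Z c => ?_) (fun x hx => ?_) (k := k) (fun f hf a => hk f (NPr_iff.1 hf) a) ha
  · by_cases hc : NumTriv c
    · exact (h0 _ (hr c hc _)).ge
    · obtain ⟨r, hr0, h1⟩ := hp.pos c hc
      rw [← ht] at h1
      rw [hinj h1]
      exact hr0.le
  · obtain ⟨r, hr0, h1⟩ := hp.pos x hx
    rw [← ht] at h1
    rw [hinj h1]
    exact hr0

section Law

variable [G.Additive] [G.Linear ℝ]

instance : (quoK F).Additive := by unfold quoK; infer_instance

instance : (quoK F).Linear ℝ := by unfold quoK; infer_instance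

instance : (kerK F).Additive := by unfold kerK; infer_instance

instance : (kerK F).Linear ℝ := by unfold kerK; infer_instance

/-- A nonnegative symmetric form: isotropic elements are in the radical. -/
lemma radical {V : Type x} [AddCommGroup V] [Module ℝ V] (B : V →ₗ[ℝ] V →ₗ[ℝ] ℝ)
    (hs : ∀ a b, B a b = B b a) (hpos : ∀ a, 0 ≤ B a a) {s : V} (hss : B s s = 0) (b : V) :
    B s b = 0 := by
  by_contra hb
  have h1 : ∀ r : ℝ, 0 ≤ 2 * r * B s b + B b b := by
    intro r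
    have h2 := hpos (r • s + b)
    simp only [map_add, map_smul, LinearMap.add_apply, LinearMap.smul_apply, smul_eq_mul] at h2
    rw [hss, hs b s] at h2
    linarith
  have h3 := h1 (-(B b b + 1) / (2 * B s b))
  have h4 : 2 * (-(B b b + 1) / (2 * B s b)) * B s b = -(B b b + 1) := by
    field_simp
  rw [h4] at h3
  linarith

lemma nil_quo {T : C} (hnil : NumNil F T) (m : ℕ) : ∃ k, ∀ f : tp T m ⟶ tp T m, NumProd k f →
    ∀ a, (frm F).B (tp T m) (((quoK F).map f).hom a) = 0 := by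
  obtain ⟨k, hk⟩ := hnil m
  refine ⟨k, fun f hf a => ?_⟩
  obtain ⟨a, rfl⟩ := (F.ker (tp T m)).mkQ_surjective a
  refine LinearMap.ext fun b => ?_
  obtain ⟨b, rfl⟩ := (F.ker (tp T m)).mkQ_surjective b
  exact (qB_mk F (tp T m) ((G.map f).hom a) b).trans (hk f hf a b)

lemma perp_quo {T : C} [ExactPairing T T] (h : IsPow ℝ R T) (hp : IsPositive R dag)
    (hnil : NumNil F T) {S : ∀ Y, Submodule ℝ ((quoK F).obj Y)} (hS : IsMaxNeg (frm F) S) (n : ℕ)
    (a : (quoK F).obj (tp T n)) (ha : ∀ s ∈ S (tp T n), (frm F).B (tp T n) a s = 0) :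
    0 ≤ (frm F).B (tp T n) a a := by
  obtain ⟨k, hk⟩ := nil_quo hnil n
  exact nonneg_perp h.real hp (cplus_tp h.real h.cplus n) hS hk a ha

lemma frm_nd (Y : C) (a : (quoK F).obj Y) (ha : ∀ b, (frm F).B Y a b = 0) : a = 0 :=
  qB_nd F Y a ha

/-- The rank is the number of all squares. -/
lemma rank_eq {T : C} [ExactPairing T T] (h : IsPow ℝ R T) (hp : IsPositive R dag)
    (hnil : NumNil F T) (n : ℕ) : F.rk (tp T n) = F.posSq (tp T n) + F.negSq (tp T n) := by
  obtain ⟨S, hS⟩ := exists_max (frm F)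
  have h1 := add_index ((frm F).B (tp T n)) ((frm F).symm _) (frm_nd _) (S (tp T n)) (hS.neg _)
    (perp_quo h hp hnil hS n)
  refine Eq.trans h1 ?_
  congr 1
  · unfold posIndex Form.posSq posIndex
    exact (negIndex_mk (F.ker (tp T n)) (-qB F (tp T n)) _ (fun a b =>
      congrArg (fun z => -z) (qB_mk F (tp T n) a b).symm)).symm
  · exact (negIndex_mk (F.ker (tp T n)) (qB F (tp T n)) _ (fun a b =>
      (qB_mk F (tp T n) a b).symm)).symm

section Pow

variable {T : C}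

lemma np_right (hR : IsReal ℝ R) {k : ℕ} {Y Z W : C} {f : Y ⟶ Z} (h : NumPow T k f)
    (g : Z ⟶ W) : NumPow T k (f ≫ g) := by
  cases k with
  | zero => trivial
  | succ k =>
    obtain ⟨b, f', y, h1, h2, rfl⟩ := h
    refine ⟨b, f', y ≫ g, h1, ?_, Category.assoc _ _ _⟩
    have := NumTriv.comp hR h2 (𝟙 _) g
    rwa [Category.id_comp] at this

lemma np_mul (hR : IsReal ℝ R) {i j : ℕ} {Y Z : C} {m : ℕ} {f : Y ⟶ tp T m}
    {g : tp T m ⟶ Z} (h : NumPow T i f) (h' : NumPow T j g) : NumPow T (i + j) (f ≫ g) := by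
  induction j generalizing Z with
  | zero => exact np_right hR h g
  | succ j ih =>
    obtain ⟨b, g', y, h1, h2, rfl⟩ := h'
    exact ⟨b, f ≫ g', y, ih h1, h2, (Category.assoc _ _ _).symm⟩

lemma np_one {m : ℕ} {Z : C} {f : tp T m ⟶ Z} (h : NumTriv f) : NumPow T 1 f :=
  ⟨m, 𝟙 _, f, trivial, h, (Category.id_comp _).symm⟩

lemma np_split (i : ℕ) {j : ℕ} {Y : C} {m : ℕ} {f : Y ⟶ tp T m} (h : NumPow T (i + j) f) :
    ∃ (c : ℕ) (g : Y ⟶ tp T c) (r : tp T c ⟶ tp T m), NumPow T i g ∧ NumPow T j r ∧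
      f = g ≫ r := by
  induction j generalizing m with
  | zero => exact ⟨m, f, 𝟙 _, h, trivial, (Category.comp_id _).symm⟩
  | succ j ih =>
    obtain ⟨b, f', y, h1, h2, rfl⟩ := h
    obtain ⟨c, g, r, h3, h4, rfl⟩ := ih h1
    exact ⟨c, g, r ≫ y, h3, ⟨b, r, y, h4, h2, rfl⟩, Category.assoc _ _ _⟩

lemma np_dag (hp : IsPositive R dag) (h : IsPow ℝ R T) {k : ℕ} {a b : ℕ}
    {f : tp T a ⟶ tp T b} (hf : NumPow T k f) : NumPow T k (dag f) := by
  induction k generalizing b with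
  | zero => trivial
  | succ k ih =>
    obtain ⟨c, g, y, h1, h2, rfl⟩ := hf
    rw [hp.comp, add_comm]
    exact np_mul h.real (np_one (dag_num h.real hp (cplus_tp h.real h.cplus _)
      (cplus_tp h.real h.cplus _) h2)) (ih h1)

end Pow

/-- The powers of an endomorphism. -/
def pw {Y : C} (g : Y ⟶ Y) : ℕ → (Y ⟶ Y)
  | 0 => 𝟙 Y
  | k + 1 => pw g k ≫ g

lemma pw_prod {Y : C} {g : Y ⟶ Y} (hg : NumTriv g) (k : ℕ) : NumProd k (pw g k) := by
  induction k with
  | zero => trivial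
  | succ k ih => exact ⟨pw g k, g, ih, hg, rfl⟩

lemma pw_add {Y : C} (g : Y ⟶ Y) (i j : ℕ) : pw g (i + j) = pw g i ≫ pw g j := by
  induction j with
  | zero => exact (Category.comp_id _).symm
  | succ j ih =>
    show pw g (i + j) ≫ g = pw g i ≫ pw g j ≫ g
    rw [ih, Category.assoc]

lemma pw_dag (hI : IsInv dag) {Y : C} {g : Y ⟶ Y} (hg : dag g = g) (k : ℕ) :
    dag (pw g k) = pw g k := by
  induction k with
  | zero =>
    show dag (𝟙 Y) = 𝟙 Y
    have h1 := hI.comp (dag (𝟙 Y)) (𝟙 Y)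
    rw [Category.comp_id, hI.invol, Category.comp_id] at h1
    exact h1.symm
  | succ k ih =>
    show dag (pw g k ≫ g) = pw g k ≫ g
    rw [hI.comp, ih, hg]
    have h1 : g ≫ pw g k = pw g (1 + k) := by
      rw [pw_add]
      show g ≫ pw g k = (𝟙 Y ≫ g) ≫ pw g k
      rw [Category.id_comp]
    rw [h1, add_comm]
    rfl

/-- Numerically trivial morphisms send the orthogonal of the maximal family to the maximal
family. -/
lemma perp_to_max (hI : IsInv dag) {F' : Form G dag}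
    (hnd : ∀ (Y : C) (a : G.obj Y), (∀ b, F'.B Y a b = 0) → a = 0)
    {S : ∀ Y, Submodule ℝ (G.obj Y)} (hS : IsMaxNeg F' S) {Y Z : C} [Module.Finite ℝ (S Z)]
    (hY : ∀ a, (∀ s ∈ S Y, F'.B Y a s = 0) → 0 ≤ F'.B Y a a)
    (hZ : ∀ a, (∀ s ∈ S Z, F'.B Z a s = 0) → 0 ≤ F'.B Z a a)
    {f : Y ⟶ Z} {k : ℕ} (hk : ∀ a, F'.B Y ((G.map (pw (f ≫ dag f) k)).hom a) = 0) {a : G.obj Y}
    (ha : ∀ s ∈ S Y, F'.B Y a s = 0) : (G.map f).hom a ∈ S Z := by
  have hperp : ∀ {W : C} (c : Y ⟶ W), ∀ s ∈ S W, F'.B W ((G.map c).hom a) s = 0 := by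
    intro W c s hs
    rw [F'.adj]
    exact ha _ (hS.stab (dag c) hs)
  set g := f ≫ dag f with hg
  have hgd : dag g = g := by rw [hg, hI.comp, hI.invol]
  let P : ∀ W : C, Submodule ℝ (G.obj W) := fun W =>
    { carrier := {a | ∀ s ∈ S W, F'.B W a s = 0}
      zero_mem' := fun s _ => by rw [map_zero, LinearMap.zero_apply]
      add_mem' := fun {a b} ha hb s hs => by
        rw [map_add, LinearMap.add_apply, ha s hs, hb s hs, add_zero]
      smul_mem' := fun c a ha s hs => by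
        rw [map_smul, LinearMap.smul_apply, ha s hs, smul_zero] }
  have hbig : ∀ m, k ≤ m → ∀ c ∈ P Y, F'.B Y ((G.map (pw g m)).hom a) c = 0 := by
    intro m hm c _
    obtain ⟨j, rfl⟩ := Nat.exists_eq_add_of_le hm
    have e1 : (G.map (pw g (k + j))).hom a =
        (G.map (pw g k)).hom ((G.map (pw g j)).hom a) := by
      rw [add_comm, pw_add, G.map_comp]
      rfl
    rw [e1, hk, LinearMap.zero_apply]
  have hhalf : ∀ m, (∀ c ∈ P Y, F'.B Y ((G.map (pw g (m + m))).hom a) c = 0) →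
      ∀ c ∈ P Y, F'.B Y ((G.map (pw g m)).hom a) c = 0 := by
    intro m hm c hc
    refine radical_on (F'.B Y) (F'.symm Y) (P Y) hY (hperp (pw g m)) ?_ hc
    rw [F'.symm, F'.adj, pw_dag hI hgd, F'.symm]
    have e1 : (G.map (pw g m)).hom ((G.map (pw g m)).hom a) = (G.map (pw g (m + m))).hom a := by
      rw [pw_add, G.map_comp]
      rfl
    rw [e1]
    exact hm a ha
  have hall : ∀ j, ∀ c ∈ P Y, F'.B Y ((G.map (pw g (2 ^ j))).hom a) c = 0 →
      F'.B Y ((G.map (pw g (2 ^ j))).hom a) c = 0 := fun _ _ _ h => h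
  have hone : ∀ j, (∀ c ∈ P Y, F'.B Y ((G.map (pw g (2 ^ j))).hom a) c = 0) →
      ∀ c ∈ P Y, F'.B Y ((G.map (pw g 1)).hom a) c = 0 := by
    intro j
    induction j with
    | zero => exact fun h => h
    | succ j ih =>
      intro h
      refine ih (hhalf _ ?_)
      have e : 2 ^ j + 2 ^ j = 2 ^ (j + 1) := by ring
      rw [e]
      exact h
  have h1 := hone k (hbig _ (Nat.lt_two_pow_self).le)
  have e1 : pw g 1 = g := Category.id_comp _
  rw [e1] at h1
  refine double_perp (F'.B Z) (F'.symm Z) (hnd Z) (S Z) fun c hc => ?_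
  refine radical_on (F'.B Z) (F'.symm Z) (P Z) hZ (hperp f) ?_ hc
  rw [F'.symm, F'.adj, F'.symm]
  have e2 : (G.map (dag f)).hom ((G.map f).hom a) = (G.map g).hom a := by
    rw [hg, G.map_comp]
    rfl
  rw [e2]
  exact h1 a ha

/-- The law for the number of the negative squares. -/
theorem sign_law {T : C} [ExactPairing T T] (h : IsPow ℝ R T) (hp : IsPositive R dag)
    (hnil : NumNil F T) : ∃ N : ℕ∞, SignLaw R F T N := by
  obtain ⟨S, hS⟩ := exists_max (frm F)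
  have hperp := perp_quo h hp hnil hS
  have hidx : ∀ n, F.negSq (tp T n) = dimE ℝ (S (tp T n)) := fun n =>
    (negIndex_mk (F.ker (tp T n)) (qB F (tp T n)) _ (fun a b =>
      (qB_mk F (tp T n) a b).symm)).trans
      (negIndex_eq ((frm F).B (tp T n)) ((frm F).symm _) (frm_nd _) (S (tp T n)) (hS.neg _)
        (hperp n))
  have hq : ∀ n (a b : G.obj (tp T n)), (frm F).B (tp T n) ((F.ker (tp T n)).mkQ a)
      ((F.ker (tp T n)).mkQ b) = F.B (tp T n) a b := fun n a b => qB_mk F (tp T n) a b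
  have hzero : ∀ n, Subsingleton (S (tp T n)) ↔ ∀ a, 0 ≤ F.B (tp T n) a a := by
    intro n
    rw [Submodule.subsingleton_iff_eq_bot]
    constructor
    · intro hbot a
      rw [← hq]
      refine hperp n _ fun s hs => ?_
      rw [hbot] at hs
      rw [(Submodule.mem_bot ℝ).1 hs, map_zero]
    · intro hall
      rw [Submodule.eq_bot_iff]
      intro s hs
      have hpos : ∀ a : (quoK F).obj (tp T n), 0 ≤ (frm F).B (tp T n) a a := by
        intro a
        obtain ⟨a, rfl⟩ := (F.ker (tp T n)).mkQ_surjective a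
        exact (hall a).trans_eq (hq n a a).symm
      have hss : (frm F).B (tp T n) s s = 0 := le_antisymm (hS.neg _ s hs) (hpos s)
      exact frm_nd _ s fun b => radical ((frm F).B (tp T n)) ((frm F).symm _) hpos hss b
  obtain ⟨N, h1, h2, h3⟩ := law h (sub (quoK F) S hS.stab)
  refine ⟨N, ?_, ?_, ?_, ?_, fun m n hn hm => ?_⟩
  · refine Tendsto.congr (fun n => ?_) h1
    show _ = ((F.negSq (tp T n) : ℕ∞) : ℝ≥0∞) / _
    rw [hidx n]
    rfl
  · rw [h2]
    exact forall_congr' fun n => hzero n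
  · rintro k rfl
    obtain ⟨-, m, l, z, hl, hz⟩ := h3 (ENat.natCast_ne_top k)
    choose y hy using fun i => (F.ker (tp T m)).mkQ_surjective (z i).1
    have h5 : ∀ (n : ℕ) (i : Fin l) (c : tp T m ⟶ tp T n),
        (F.ker (tp T n)).mkQ ((G.map c).hom (y i)) = ((quoK F).map c).hom (z i).1 := by
      intro n i c
      rw [← hy i]
      rfl
    refine ⟨m, l, y, by exact_mod_cast hl, fun n => ⟨_, rfl, ?_, ?_⟩⟩
    · have h4 : (Submodule.span ℝ {x : G.obj (tp T n) | ∃ (i : Fin l)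
          (c : tp T m ⟶ tp T n), (G.map c).hom (y i) = x}) ≤
          (S (tp T n)).comap (F.ker (tp T n)).mkQ := by
        refine Submodule.span_le.2 ?_
        rintro _ ⟨i, c, rfl⟩
        show (F.ker (tp T n)).mkQ ((G.map c).hom (y i)) ∈ S (tp T n)
        rw [h5]
        exact hS.stab c (z i).2
      intro a ha
      rw [← hq]
      exact hS.neg _ _ (h4 ha)
    · intro a ha
      rw [← hq]
      refine hperp n _ fun s hs => ?_
      have h6 : (⟨s, hs⟩ : S (tp T n)) ∈ Submodule.span ℝ {x : S (tp T n) |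
          ∃ (i : Fin l) (c : tp T m ⟶ tp T n),
            (((sub (quoK F) S hS.stab).map c).hom (z i) : S (tp T n)) = x} :=
        hz n (⟨s, hs⟩ : S (tp T n))
      refine Submodule.span_induction (p := fun x _ => (frm F).B (tp T n)
        ((F.ker (tp T n)).mkQ a) x.1 = 0) ?_ ?_ ?_ ?_ h6
      · rintro _ ⟨i, c, rfl⟩
        show (frm F).B (tp T n) ((F.ker (tp T n)).mkQ a) (((quoK F).map c).hom (z i).1) = 0
        rw [← h5 n i c, hq]
        exact ha _ (Submodule.subset_span ⟨i, c, rfl⟩)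
      · show (frm F).B (tp T n) ((F.ker (tp T n)).mkQ a) 0 = 0
        rw [map_zero]
      · intro s s' _ _ h7 h8
        show (frm F).B (tp T n) ((F.ker (tp T n)).mkQ a) (s.1 + s'.1) = 0
        rw [map_add, h7, h8, add_zero]
      · intro r s _ h7
        show (frm F).B (tp T n) ((F.ker (tp T n)).mkQ a) (r • s.1) = 0
        rw [map_smul, h7, smul_zero]
  · rintro k rfl a b f hf y z
    obtain ⟨hfin, -⟩ := h3 (ENat.natCast_ne_top k)
    obtain ⟨-, hst⟩ := structure_thm h (sub (quoK F) S hS.stab) h1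
    have hkill : ∀ {a b : ℕ} (f : tp T a ⟶ tp T b), NumPow T k f → ∀ s ∈ S (tp T a),
        ((quoK F).map f).hom s = 0 := by
      intro a b f hf s hs
      have h4 := congrArg (fun q : (sub (quoK F) S hS.stab).obj (tp T a) ⟶
        (sub (quoK F) S hS.stab).obj (tp T b) => q.hom (⟨s, hs⟩ : S (tp T a))) (hst a b f hf)
      exact congrArg (fun z : S (tp T b) => z.1) h4
    have hf' : NumPow T (k + (1 + k)) f := by
      have e : k + (1 + k) = 2 * k + 1 := by ring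
      rw [e]
      exact hf
    obtain ⟨c, g, r, hg, hr, rfl⟩ := np_split k hf'
    obtain ⟨d, y1, r1, hy1, hr1, rfl⟩ := np_split 1 hr
    have hy1' : NumTriv y1 := by
      obtain ⟨e, g0, y0, -, h5, rfl⟩ := hy1
      have := NumTriv.comp h.real h5 g0 (𝟙 _)
      rwa [Category.comp_id] at this
    have s1 : ∀ s ∈ S (tp T c), (frm F).B (tp T c)
        (((quoK F).map g).hom ((F.ker (tp T a)).mkQ y)) s = 0 := by
      intro s hs
      refine ((frm F).adj g ((F.ker (tp T a)).mkQ y) s).trans ?_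
      rw [hkill (dag g) (np_dag hp h hg) s hs, map_zero]
    obtain ⟨k', hk'⟩ := nil_quo hnil c
    haveI : Module.Finite ℝ (S (tp T d)) := (hfin d).1
    have hnum : NumTriv (y1 ≫ dag y1) := by
      have := NumTriv.comp h.real hy1' (𝟙 _) (dag y1)
      rwa [Category.id_comp] at this
    have s2 := perp_to_max hp.toIsInv frm_nd hS (hperp c) (hperp d) (f := y1) (k := k')
      (fun a => hk' _ (pw_prod hnum k') a) s1
    have s3 := hkill r1 hr1 _ s2
    have e1 : ((quoK F).map r1).hom (((quoK F).map y1).hom (((quoK F).map g).hom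
        ((F.ker (tp T a)).mkQ y))) =
        (F.ker (tp T b)).mkQ ((G.map (g ≫ y1 ≫ r1)).hom y) := by
      rw [G.map_comp, G.map_comp]
      rfl
    rw [e1] at s3
    rw [← hq, s3, map_zero]
    rfl
  · have h1 := gap h (sub (quoK F) S hS.stab) hn (fun hs => by
      obtain ⟨a, ha⟩ := hm
      exact absurd ((hzero m).1 hs a) (not_le.2 ha))
    have h2 : dimE ℝ ((sub (quoK F) S hS.stab).obj (tp T (2 * n))) =
        F.negSq (tp T (2 * n)) := (hidx (2 * n)).symm
    rw [h2] at h1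
    exact h1

/-- Part A: external products. -/
lemma ext_prod (hR : IsReal ℝ R) (hp : IsPositive R dag) {Y Z : C} {a : G.obj Y}
    (ha : F.B Y a a < 0) : (numRank ℝ Z : ℕ∞) ≤ F.negSq (Y ⊗ Z) := by
  have hfin := finite_num hR (Λ := ℝ) (𝟙_ C) Z
  refine le_negIndex_iff.2 ?_
  let bas := Module.finBasis ℝ ((𝟙_ C ⟶ Z) ⧸ numIdeal ℝ (𝟙_ C) Z)
  choose α hα using fun i => (numIdeal ℝ (𝟙_ C) Z).mkQ_surjective (bas i)
  let P : (𝟙_ C ⟶ Z) →ₗ[ℝ] G.obj (Y ⊗ Z) :=
    { toFun := fun β => (G.map ((ρ_ Y).inv ≫ Y ◁ β)).hom a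
      map_add' := fun β γ => by
        rw [MonoidalPreadditive.whiskerLeft_add, Preadditive.comp_add, G.map_add]
        rfl
      map_smul' := fun r β => by
        rw [MonoidalLinear.whiskerLeft_smul, Linear.comp_smul, G.map_smul]
        rfl }
  refine ⟨fun i => P (α i), fun c hc => ?_⟩
  have e1 : ∑ i, c i • P (α i) = P (∑ i, c i • α i) := by
    rw [map_sum]
    exact Finset.sum_congr rfl fun i _ => (map_smul P _ _).symm
  set β := ∑ i, c i • α i with hβ
  have hβn : ¬ NumTriv β := by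
    intro hn
    apply hc
    have h1 : (numIdeal ℝ (𝟙_ C) Z).mkQ β = 0 := (Submodule.Quotient.mk_eq_zero _).2 hn
    rw [hβ, map_sum] at h1
    have h9 : ∑ i, c i • bas i = 0 := by
      refine Eq.trans (Finset.sum_congr rfl fun i _ => ?_) h1
      rw [map_smul, hα i]
    exact funext (Fintype.linearIndependent_iff.1 bas.linearIndependent c h9)
  obtain ⟨r, hr0, hr⟩ := hp.pos β hβn
  have hu : β ≫ dag β = r • 𝟙 (𝟙_ C) := by
    obtain ⟨r', hr'⟩ := hR.unit (β ≫ dag β)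
    rw [rtr, hr', hR.lin, CategoryTheory.Functor.map_id] at hr
    have h2 : LinearMap.trace K (R.H.obj (𝟙_ C)) (𝟙 (R.H.obj (𝟙_ C)) :
        R.H.obj (𝟙_ C) ⟶ R.H.obj (𝟙_ C)).hom = 1 := by
      have h3 := A1aux.st_one R
      unfold A1aux.st at h3
      rw [CategoryTheory.Functor.map_id, Category.id_comp, R.par_unit] at h3
      exact h3
    have h4 : LinearMap.trace K (R.H.obj (𝟙_ C)) (algebraMap ℝ K r' • 𝟙 (R.H.obj (𝟙_ C)) :
        R.H.obj (𝟙_ C) ⟶ R.H.obj (𝟙_ C)).hom = algebraMap ℝ K r' := by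
      rw [ModuleCat.hom_smul, map_smul, h2, smul_eq_mul, mul_one]
    rw [h4] at hr
    rw [hr', (algebraMap ℝ K).injective hr]
  have e2 : ((ρ_ Y).inv ≫ Y ◁ β) ≫ dag ((ρ_ Y).inv ≫ Y ◁ β) = r • 𝟙 Y := by
    have h5 : dag (ρ_ Y).inv = (ρ_ Y).hom := by rw [← hp.unitor, hp.invol]
    rw [hp.comp, hp.whisker, h5]
    have h6 : ((ρ_ Y).inv ≫ Y ◁ β) ≫ Y ◁ dag β ≫ (ρ_ Y).hom =
        (ρ_ Y).inv ≫ Y ◁ (β ≫ dag β) ≫ (ρ_ Y).hom := by
      rw [MonoidalCategory.whiskerLeft_comp]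
      simp only [Category.assoc]
    rw [h6, hu, MonoidalLinear.whiskerLeft_smul, MonoidalCategory.whiskerLeft_id,
      Linear.smul_comp, Linear.comp_smul, Category.id_comp, Iso.inv_hom_id]
  have e3 : F.B (Y ⊗ Z) (P β) (P β) = r * F.B Y a a := by
    have h7 : F.B (Y ⊗ Z) (P β) (P β) = F.B Y a
        ((G.map (dag ((ρ_ Y).inv ≫ Y ◁ β))).hom ((G.map ((ρ_ Y).inv ≫ Y ◁ β)).hom a)) :=
      F.adj _ a _
    have h8 : (G.map (dag ((ρ_ Y).inv ≫ Y ◁ β))).hom ((G.map ((ρ_ Y).inv ≫ Y ◁ β)).hom a) =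
        r • a := by
      have h9 : (G.map (((ρ_ Y).inv ≫ Y ◁ β) ≫ dag ((ρ_ Y).inv ≫ Y ◁ β))).hom a = r • a := by
        rw [e2, G.map_smul, G.map_id]
        rfl
      rw [G.map_comp] at h9
      exact h9
    rw [h7, h8, map_smul, smul_eq_mul]
  show F.B (Y ⊗ Z) (∑ i, c i • P (α i)) (∑ i, c i • P (α i)) < 0
  rw [e1, e3]
  nlinarith

/-- The law for the kernels. -/
theorem ker_law {T : C} [ExactPairing T T] (h : IsPow ℝ R T) : ∃ Nall Nker Nrk : ℕ∞,
    KerLaw F T Nall Nker Nrk ∧ (Nrk ≠ ⊤ → NumNil F T) := by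
  obtain ⟨Nall, a1, -⟩ := law h G
  obtain ⟨Nker, c1, c2, -⟩ := law h (kerK F)
  obtain ⟨Nrk, d1, d2, -⟩ := law h (quoK F)
  have hdim : ∀ n, dimE ℝ (G.obj (tp T n)) = dimE ℝ (F.ker (tp T n)) + F.rk (tp T n) := by
    intro n
    rw [add_comm]
    exact (dimE_quot_add (F.ker (tp T n))).symm
  refine ⟨Nall, Nker, Nrk, ⟨a1, c1, d1, ?_, ?_⟩, fun hN m => ?_⟩
  · have e1 := Tendsto.add c1 d1
    have e3 : ∀ n, ((dimE ℝ ((kerK F).obj (tp T n)) : ℕ∞) : ℝ≥0∞) / numRank ℝ (tp T n) +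
        ((dimE ℝ ((quoK F).obj (tp T n)) : ℕ∞) : ℝ≥0∞) / numRank ℝ (tp T n) =
        ((dimE ℝ (G.obj (tp T n)) : ℕ∞) : ℝ≥0∞) / numRank ℝ (tp T n) := by
      intro n
      have e4 := congrArg (fun z : ℕ∞ => (z : ℝ≥0∞)) (hdim n)
      simp only [ENat.toENNReal_add] at e4
      rw [← ENNReal.add_div]
      congr 1
      exact e4.symm
    have e5 := tendsto_nhds_unique a1 (e1.congr e3)
    exact_mod_cast e5
  · rw [c2]
    refine forall_congr' fun n => ?_
    have h1 : Subsingleton ((kerK F).obj (tp T n)) ↔ F.ker (tp T n) = ⊥ :=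
      Submodule.subsingleton_iff_eq_bot
    rw [h1, Submodule.eq_bot_iff]
    refine forall_congr' fun a => ⟨fun h2 h3 => h2 (LinearMap.mem_ker.2 (LinearMap.ext h3)),
      fun h2 h3 => h2 fun b => ?_⟩
    rw [LinearMap.mem_ker.1 h3]
    rfl
  · obtain ⟨k, rfl⟩ := ENat.ne_top_iff_exists.1 hN
    obtain ⟨-, hst⟩ := structure_thm h (quoK F) d1
    refine ⟨k, fun f hf a b => ?_⟩
    have hf' : NumPow T k f := by
      clear hst d1 d2 hN
      induction k generalizing f with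
      | zero => trivial
      | succ k ih =>
        obtain ⟨g, y, h6, h7, h8⟩ := hf
        exact ⟨m, g, y, ih g h6, h7, h8⟩
    have h3 := congrArg (fun q : (quoK F).obj (tp T m) ⟶ (quoK F).obj (tp T m) =>
      q.hom ((F.ker (tp T m)).mkQ a)) (hst m m f hf')
    have h4 : (F.ker (tp T m)).mkQ ((G.map f).hom a) = 0 := h3
    have h5 : F.B (tp T m) ((G.map f).hom a) = 0 :=
      LinearMap.mem_ker.1 ((Submodule.Quotient.mk_eq_zero _).1 h4)
    rw [h5]
    rfl

/-- **The law of inertia.** -/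
theorem inertia {T : C} [ExactPairing T T] (h : IsPow ℝ R T) (hp : IsPositive R dag)
    (hnil : NumNil F T) {Nall Nker Nrk : ℕ∞} (hk : KerLaw F T Nall Nker Nrk) :
    ∃ Npos Nneg : ℕ∞, Inertia R F T Nker Npos Nneg ∧ Nrk = Npos + Nneg := by
  obtain ⟨Nneg, a2⟩ := sign_law h hp hnil
  have hnil' : NumNil F.neg T := by
    intro m
    obtain ⟨k, hk⟩ := hnil m
    refine ⟨k, fun f hf a b => ?_⟩
    have h1 : F.neg.B (tp T m) ((G.map f).hom a) b = -(F.B (tp T m) ((G.map f).hom a) b) := rfl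
    rw [h1, hk f hf a b, neg_zero]
  obtain ⟨Npos, b2⟩ := sign_law h hp hnil'
  have a1 := rank_eq h hp hnil
  refine ⟨Npos, Nneg, ⟨a1, a2, b2, ?_, ?_⟩, ?_⟩
  · rw [hk.nondeg, a2.nonneg]
    constructor
    · rintro ⟨h1, h2⟩ n a ha
      refine lt_of_le_of_ne (h2 n a) fun h3 => ha (h1 n a ?_)
      exact radical (F.B (tp T n)) (F.symm _) (h2 n) h3.symm
    · intro h1
      refine ⟨fun n a ha => ?_, fun n a => ?_⟩
      · by_contra ha0
        exact absurd (ha a) (h1 n a ha0).ne'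
      · by_cases ha : a = 0
        · rw [ha, map_zero]
        · exact (h1 n a ha).le
  · rintro k l hkk rfl a b f hf
    obtain ⟨c, g, r, hg, hr, rfl⟩ := np_split (2 * k + 1) hf
    obtain ⟨-, hst⟩ := structure_thm h (kerK F) hk.ker
    ext y
    have h3 : (G.map g).hom y ∈ F.ker (tp T c) :=
      LinearMap.mem_ker.2 (LinearMap.ext fun z => a2.kills k hkk a c g hg y z)
    have h4 := congrArg (fun q : (kerK F).obj (tp T c) ⟶ (kerK F).obj (tp T b) =>
      q.hom (⟨_, h3⟩ : F.ker (tp T c))) (hst c b r hr)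
    have h5 : (G.map r).hom ((G.map g).hom y) = 0 :=
      congrArg (fun z : F.ker (tp T b) => z.1) h4
    rw [G.map_comp]
    exact h5
  · have e1 := Tendsto.add b2.limit a2.limit
    have e3 : ∀ n, ((F.neg.negSq (tp T n) : ℕ∞) : ℝ≥0∞) / numRank ℝ (tp T n) +
        ((F.negSq (tp T n) : ℕ∞) : ℝ≥0∞) / numRank ℝ (tp T n) =
        ((F.rk (tp T n) : ℕ∞) : ℝ≥0∞) / numRank ℝ (tp T n) := by
      intro n
      have e4 := congrArg (fun z : ℕ∞ => (z : ℝ≥0∞)) (a1 n)
      simp only [ENat.toENNReal_add] at e4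
      rw [← ENNReal.add_div]
      congr 1
      exact e4.symm
    have e5 := tendsto_nhds_unique hk.rk (e1.congr e3)
    exact_mod_cast e5

/-- The theorem. -/
theorem main {T : C} [ExactPairing T T] (h : IsPow ℝ R T) (hp : IsPositive R dag)
    (F : Form G dag) :
    (∀ (Y Z : C) (a : G.obj Y), (F.B Y a a < 0 → (numRank ℝ Z : ℕ∞) ≤ F.negSq (Y ⊗ Z)) ∧
      (0 < F.B Y a a → (numRank ℝ Z : ℕ∞) ≤ F.posSq (Y ⊗ Z))) ∧
    ∃ Nall Nker Nrk : ℕ∞, KerLaw F T Nall Nker Nrk ∧ (Nrk ≠ ⊤ → NumNil F T) ∧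
      (NumNil F T → ∃ Npos Nneg : ℕ∞, Inertia R F T Nker Npos Nneg ∧ Nrk = Npos + Nneg) := by
  refine ⟨fun Y Z a => ⟨fun ha => ext_prod h.real hp ha, fun ha => ?_⟩, ?_⟩
  · exact ext_prod (F := F.neg) h.real hp (a := a) (neg_neg_of_pos ha)
  · obtain ⟨Nall, Nker, Nrk, h1, h2⟩ := ker_law (F := F) h
    exact ⟨Nall, Nker, Nrk, h1, h2, fun hnil => inertia h hp hnil h1⟩

end Law

end Pool.Agent.Run7.h641.IL
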